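import Pool.Agent.Helper9.DY.Fn
import Pool.Agent.Helper9.DY.Foot
import Pool.Agent.Helper70.DY.Im

/-!
# The configuration `(**)` in the chamber of the foot of the centre (MP_d13a5e_al)

`Loc Ψ B ρ φ t d1 d2 x x'` collects everything that is used about the centre `ρ` (normalised by `ρ t = 1`),
the point `F` (`φ`, vanishing on `x` and `x'`, `φ t = 1`) and the chamber `t, d1, d2` which contains the foot of
the centre on `t`, if no flat through `t` kills.  For a positive root `n` the pencil of `t` and `n` gives the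
information `Str c (φ n) (ρ n)`, `c = -B t n`, a statement about real numbers only.  The statement `StarS`
follows from `Loc -> False` (file `Star.lean`).
-/

namespace DY

open Set

variable {E : Type*} [AddCommGroup E] [Module ℝ E]

/-- Chebyshev sequence -/
def sq (c : ℝ) : ℕ → ℝ
  | 0 => 0
  | 1 => 1
  | (k + 2) => 2 * c * sq c (k + 1) - sq c k

/-- the roots of the pencil of `t` and `n`: `pc c n t 0 = n`, `pc c n t 1 = 2 c n + t`, ... -/
def pc (c : ℝ) (n t : E) (k : ℕ) : E := sq c (k + 1) • n + sq c k • t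

/-- what the pencil of `t` and a positive root `n` gives, `c = -B t n`, `f = φ n`, `r = ρ n`, if it does not
kill.  `low`: all values are at least `-1`.  `nk`: if `k` is the first index with `φ (pc k) > 0`, and `φ n < 0`,
then `ρ (pc k) > 1`, that is `r > - tau_(k+1)`.  `foot`: the foot is on the positive side.  `ult`: for
`c >= 1` it gives `r >= -(c - sqrt (c^2 - 1))`.  `K1`: the kill criterion of helper54. -/
structure Str (c f r : ℝ) : Prop where
  low : ∀ k, (∀ i ≤ k, 0 < sq c (i + 1)) → -1 ≤ sq c (k + 1) * r + sq c k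
  nk : f < 0 → ∀ k, (∀ i ≤ k, 0 < sq c (i + 1)) → (∀ i < k, sq c (i + 1) * f + sq c i ≤ 0) →
    0 < sq c (k + 1) * f + sq c k → 1 < sq c (k + 1) * r + sq c k
  foot : -c ≤ r
  ult : 1 ≤ c → 0 ≤ 1 + r ^ 2 + 2 * c * r
  K1 : 0 < c → f < 0 → f < r

/-- `(**)` in the chamber of the foot -/
structure Loc (Ψ : Set E) (B : E →ₗ[ℝ] E →ₗ[ℝ] ℝ) (ρ φ : E →ₗ[ℝ] ℝ) (t d1 d2 x x' : E) : Prop where
  tri : Tri Ψ B t d1 d2
  adm : Adm Ψ t d1 d2 ρ
  rt : ρ t = 1
  ft : φ t = 1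
  fx : φ x = 0
  fx' : φ x' = 0
  xm : x ∈ Ψ
  xm' : x' ∈ Ψ
  xp : x ∈ C01 t d1 d2
  xp' : x' ∈ C01 t d1 d2
  cxx : Canon Ψ x x'
  cxt : Canon Ψ x t
  cxt' : Canon Ψ x' t
  ind : ∀ α β γ : ℝ, α • x + β • x' + γ • t = 0 → α = 0 ∧ β = 0 ∧ γ = 0
  sp : ∀ u ∈ Ψ, ∃ α β : ℝ, u = α • x + β • x' + φ u • t
  rx : 0 ≤ ρ x
  rx' : 0 ≤ ρ x'
  pos : 0 < ρ x + ρ x'
  sum : ρ x + ρ x' ≤ 1
  nch : ¬ (x = d1 ∧ x' = d2)
  nch' : ¬ (x = d2 ∧ x' = d1)
  str : ∀ n ∈ Ψ, n ∈ C01 t d1 d2 → n ≠ t → Str (-B t n) (φ n) (ρ n)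

end DY
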