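import Pool.Agent.Helper9.DY.NG
import Pool.Agent.Helper80.DY.E0H

/-!
# Assembly of [GAP2] (MP_d13a5e_al)

`m_O = 2`: `a = d1`, `h = d2`.  `b1 = -B t d1`, `b2 = -B t d2`, `w = t + 2 b1 d1 + 2 b2 d2`,
`φ w = 1 + 2 b1 φ(d1) + 2 b2 φ(d2)`.  `Good b2 (φ d2) k` is the index `j = k + 1` of `F` at the vertex `t ∩ d2`.
-/

set_option autoImplicit false

namespace DY

open Set

variable {E : Type*} [AddCommGroup E] [Module ℝ E]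

/-- the data of [GAP2] and an additional condition `P` on `b1, b2, φ d1, φ d2` -/
def GP2 (Ψ : Set E) (B : E →ₗ[ℝ] E →ₗ[ℝ] ℝ) (P : ℝ → ℝ → ℝ → ℝ → Prop) : Prop :=
  ∀ (ρ φ : E →ₗ[ℝ] ℝ) (t d1 d2 x x' : E) (g x1 x2 g' x1' x2' : ℝ),
    Xs Ψ B ρ φ t d1 d2 x x' g x1 x2 g' x1' x2' → B d1 d2 = 0 → 1 / 2 ≤ -B t d1 → 1 / 2 ≤ -B t d2 →
    P (-B t d1) (-B t d2) (φ d1) (φ d2) → False

/-- (a) `φ w < 0`: `j = 3`, or `m1 = 3` and `j = 4`, or `m1 = 3`, `b2 < 1` and `j = 5` -/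
def G2a (Ψ : Set E) (B : E →ₗ[ℝ] E →ₗ[ℝ] ℝ) : Prop :=
  GP2 Ψ B fun b1 b2 f1 f2 => 1 < b1 ^ 2 + b2 ^ 2 ∧ 1 + 2 * b1 * f1 + 2 * b2 * f2 < 0 ∧
    (Good b2 f2 2 ∨ (b1 = 1 / 2 ∧ Good b2 f2 3) ∨ (b1 = 1 / 2 ∧ b2 < 1 ∧ Good b2 f2 4))

/-- (b) `j ≥ 4`, except the classes of (a) -/
def G2b (Ψ : Set E) (B : E →ₗ[ℝ] E →ₗ[ℝ] ℝ) : Prop :=
  GP2 Ψ B fun b1 b2 f1 f2 => 1 < b1 ^ 2 + b2 ^ 2 ∧ ∃ k, 3 ≤ k ∧ Good b2 f2 k ∧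
    ¬ (1 + 2 * b1 * f1 + 2 * b2 * f2 < 0 ∧ b1 = 1 / 2 ∧ (k = 3 ∨ (k = 4 ∧ b2 < 1)))

/-- (c) `j = 3`, `φ w ≥ 0` -/
def G2c (Ψ : Set E) (B : E →ₗ[ℝ] E →ₗ[ℝ] ℝ) : Prop :=
  GP2 Ψ B fun b1 b2 f1 f2 => 1 < b1 ^ 2 + b2 ^ 2 ∧ 0 ≤ 1 + 2 * b1 * f1 + 2 * b2 * f2 ∧ Good b2 f2 2

/-- (d) `F` beyond the vertex `t ∩ d2` -/
def G2d (Ψ : Set E) (B : E →ₗ[ℝ] E →ₗ[ℝ] ℝ) : Prop :=
  GP2 Ψ B fun b1 b2 _ f2 => 1 < b1 ^ 2 + b2 ^ 2 ∧ Beyond b2 f2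

/-- (e) spherical and affine labels -/
def G2e (Ψ : Set E) (B : E →ₗ[ℝ] E →ₗ[ℝ] ℝ) : Prop :=
  GP2 Ψ B fun b1 b2 _ _ => b1 ^ 2 + b2 ^ 2 ≤ 1

/-- `j = 2` is impossible: `F` would be in the chamber `-d2, t + 2 b2 d2, d1` -/
theorem Xs.not_good_one {Ψ : Set E} {B : E →ₗ[ℝ] E →ₗ[ℝ] ℝ} {ρ φ : E →ₗ[ℝ] ℝ} {t d1 d2 x x' : E}
    {g x1 x2 g' x1' x2' : ℝ} (X : Xs Ψ B ρ φ t d1 d2 x x' g x1 x2 g' x1' x2') (h0 : B d1 d2 = 0) :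
    ¬ Good (-B t d2) (φ d2) 1 := by
  intro h
  have e2 : sq (-B t d2) 2 = 2 * -B t d2 := Pool.Agent.Helper80.DY.sq_two' _
  have e1 : sq (-B t d2) 1 = 1 := rfl
  have hp := h.hpos
  have e3 : (1 : ℕ) + 1 = 2 := rfl
  rw [e3, e2, e1] at hp
  -- `r_2 x`
  have hR := Pool.Agent.Helper62.DY.rt_of_tri X.L.tri
  have hxm : g • t + x1 • d1 + x2 • d2 ∈ Ψ := by
    rw [← X.e]
    exact X.L.xm
  have h2 := hR.r2 _ _ _ hxm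
  have h3 := (hR.z1 h2 (by linarith [X.p1])).2.2
  have hY : 0 ≤ 2 * -B t d2 * g + 2 * -B d1 d2 * x1 - x2 := by
    rcases h3 with h4 | h4 <;> linarith
  have hg : 0 ≤ g := by
    rcases X.c.zg with h4 | h4 <;> linarith
  have f1 : g + x1 * φ d1 + x2 * φ d2 = 0 := by
    have := X.c.fz
    linarith
  rw [h0] at hY
  have k1 := mul_nonneg hY (by linarith [X.h2] : 0 ≤ -φ d2)
  have k2 := mul_nonneg hg hp.le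
  have k3 := mul_nonneg (by linarith [X.p1] : 0 ≤ x1) X.h1
  have k4 : (2 * -B t d2 * g + 2 * -0 * x1 - x2) * -φ d2 + g * (2 * -B t d2 * φ d2 + 1) +
      x1 * φ d1 = 0 := by
    linear_combination f1
  have k5 : g * (2 * -B t d2 * φ d2 + 1) = 0 := by linarith
  have k6 : (2 * -B t d2 * g + 2 * -0 * x1 - x2) * -φ d2 = 0 := by linarith
  rcases mul_eq_zero.1 k5 with h5 | h5
  · rcases mul_eq_zero.1 k6 with h6 | h6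
    · have := X.p2
      rw [h5] at h6
      linarith
    · linarith [X.h2]
  · linarith

/-- **assembly of [GAP2]** -/
theorem gap2_of {Ψ : Set E} {B : E →ₗ[ℝ] E →ₗ[ℝ] ℝ} (ha : G2a Ψ B) (hb : G2b Ψ B) (hc : G2c Ψ B)
    (hd : G2d Ψ B) (he : G2e Ψ B) : GAP2 Ψ B := by
  intro ρ φ t d1 d2 x x' g x1 x2 g' x1' x2' al1 al2 be1 be2 X O h0 _ _ _ _
  have hR := Pool.Agent.Helper62.DY.rt_of_tri X.L.tri
  have hxm : g • t + x1 • d1 + x2 • d2 ∈ Ψ := by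
    rw [← X.e]
    exact X.L.xm
  -- the labels are not `0`
  have hb1 : 1 / 2 ≤ -B t d1 := by
    rcases X.L.lbl.z1 with h | h
    · exfalso
      have h1 := (hR.z2 (hR.r1 _ _ _ hxm) (by linarith [X.p2])).2.1
      rw [h0, h] at h1
      rcases h1 with h1 | h1 <;> linarith [X.p1]
    · linarith
  have hb2 : 1 / 2 ≤ -B t d2 := by
    rcases X.L.lbl.z2 with h | h
    · exfalso
      have h1 := (hR.z1 (hR.r2 _ _ _ hxm) (by linarith [X.p1])).2.2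
      rw [h0, h] at h1
      rcases h1 with h1 | h1 <;> linarith [X.p2]
    · linarith
  rcases le_or_gt ((-B t d1) ^ 2 + (-B t d2) ^ 2) 1 with hq | hq
  · exact he _ _ _ _ _ _ _ _ _ _ _ _ _ X h0 hb1 hb2 hq
  rcases good_or_beyond (-B t d2) (φ d2) with ⟨k, hk⟩ | h2
  · have hk1 := hk.pos X.h2
    rcases Nat.lt_or_ge k 3 with h3 | h3
    · rcases Nat.lt_or_ge k 2 with h4 | h4
      · have h5 : k = 1 := by omega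
        subst h5
        exact X.not_good_one h0 hk
      · have h5 : k = 2 := by omega
        subst h5
        rcases le_or_gt 0 (1 + 2 * -B t d1 * φ d1 + 2 * -B t d2 * φ d2) with h6 | h6
        · exact hc _ _ _ _ _ _ _ _ _ _ _ _ _ X h0 hb1 hb2 ⟨hq, h6, hk⟩
        · exact ha _ _ _ _ _ _ _ _ _ _ _ _ _ X h0 hb1 hb2 ⟨hq, h6, Or.inl hk⟩
    · by_cases h6 : 1 + 2 * -B t d1 * φ d1 + 2 * -B t d2 * φ d2 < 0 ∧ -B t d1 = 1 / 2 ∧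
        (k = 3 ∨ (k = 4 ∧ -B t d2 < 1))
      · obtain ⟨h7, h8, h9⟩ := h6
        rcases h9 with h9 | ⟨h9, h10⟩
        · subst h9
          exact ha _ _ _ _ _ _ _ _ _ _ _ _ _ X h0 hb1 hb2 ⟨hq, h7, Or.inr (Or.inl ⟨h8, hk⟩)⟩
        · subst h9
          exact ha _ _ _ _ _ _ _ _ _ _ _ _ _ X h0 hb1 hb2 ⟨hq, h7, Or.inr (Or.inr ⟨h8, h10, hk⟩)⟩
      · exact hb _ _ _ _ _ _ _ _ _ _ _ _ _ X h0 hb1 hb2 ⟨hq, k, h3, hk, h6⟩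
  · exact hd _ _ _ _ _ _ _ _ _ _ _ _ _ X h0 hb1 hb2 ⟨hq, h2⟩

end DY
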