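import Pool.Agent.Helper7.DY.Gap2
import Pool.Agent.Helper23.DY.F1

/-!
# [GAP2] for spherical and affine labels, part A: the data (MP_d13a5e_al)

`AD b1 b2 κ f g x1 x2 r1 r2 g' y1 y2 R`: the real data of two roots `x = g t + x1 d1 + x2 d2` (steeper) and
`x' = g' t + y1 d1 + y2 d2`, `κ = -φ d2`, `f = φ d1`, `r1 = ρ d1`, `r2 = ρ d2`, `B d1 d2 = 0`.
-/

set_option autoImplicit false

namespace DY

open Set
open Pool.Agent.Helper62.DY (RT rt_of_tri)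
open Pool.Agent.Helper80.DY (Cfg no_flat)

variable {E : Type*} [AddCommGroup E] [Module ℝ E]
variable {Ψ : Set E} {B : E →ₗ[ℝ] E →ₗ[ℝ] ℝ} {ρ φ : E →ₗ[ℝ] ℝ} {t d1 d2 x x' : E}
variable {g x1 x2 g' x1' x2' : ℝ}

/-- `φ d1 = 0` is impossible after [E0] -/
theorem Xs.f_pos (X : Xs Ψ B ρ φ t d1 d2 x x' g x1 x2 g' x1' x2') : 0 < φ d1 := by
  rcases X.h1.lt_or_eq with h | h
  · exact h
  exfalso
  obtain ⟨a, b, h0⟩ := X.L.sp d1 X.L.tri.hb
  rw [← h, zero_smul, add_zero] at h0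
  have h2 : (0 : ℝ) • t + (1 : ℝ) • d1 + (0 : ℝ) • d2 =
      (a * g + b * g') • t + (a * x1 + b * x1') • d1 + (a * x2 + b * x2') • d2 := by
    have : (0 : ℝ) • t + (1 : ℝ) • d1 + (0 : ℝ) • d2 = d1 := by module
    rw [this]
    conv_lhs => rw [h0, X.e, X.e']
    module
  obtain ⟨-, h3, h4⟩ := X.L.tri.coordW h2
  have p1 := X.p1
  have p2 := X.p2
  have p1' := X.p1'
  have p2' := X.p2'
  rcases X.L.cxx _ X.L.tri.hb a b h0 with (⟨k1, k2⟩ | ⟨k1, k2⟩ | ⟨k1, k2⟩) | (⟨k1, k2⟩ | ⟨k1, k2⟩ | ⟨k1, k2⟩)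
  · rw [k1, k2, zero_smul, zero_add, one_smul] at h0
    have h5 := X.L.rx'
    rw [← h0] at h5
    linarith [X.hG]
  · rw [k1, k2] at h4
    linarith
  · have := mul_pos (by linarith : 0 < a) (by linarith : 0 < x2)
    have := mul_nonneg (by linarith : 0 ≤ b) p2'
    linarith
  · have k3 : a = 0 := by linarith
    have k4 : b = -1 := by linarith
    rw [k3, k4] at h3
    linarith
  · have k3 : a = -1 := by linarith
    have k4 : b = 0 := by linarith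
    rw [k3, k4] at h3
    linarith
  · have := mul_pos (by linarith : 0 < -a) (by linarith : 0 < x1)
    have := mul_pos (by linarith : 0 < -b) (by linarith : 0 < x1')
    linarith

/-- `Δ d1 = x2 x' - x2' x + Δ φ(d1) t` -/
theorem Xs.d1_eq (X : Xs Ψ B ρ φ t d1 d2 x x' g x1 x2 g' x1' x2') :
    (x2 * x1' - x1 * x2') • d1 = x2 • x' - x2' • x + ((x2 * x1' - x1 * x2') * φ d1) • t := by
  have f1 : g + x1 * φ d1 + x2 * φ d2 = 0 := by
    have := X.c.fz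
    linarith
  have f2 : g' + x1' * φ d1 + x2' * φ d2 = 0 := by
    have := X.c'.fz
    linarith
  have h : (x2 * x1' - x1 * x2') * φ d1 = x2' * g - x2 * g' := by
    linear_combination x2 * f2 - x2' * f1
  rw [h, X.e, X.e']
  module

/-- `B x d1 ≤ 0` -/
theorem Xs.Bxd1_nonpos (X : Xs Ψ B ρ φ t d1 d2 x x' g x1 x2 g' x1' x2') : B x d1 ≤ 0 := by
  have h := congrArg (B x) X.d1_eq
  simp only [map_add, map_sub, map_smul, smul_eq_mul, X.L.tri.one x X.L.xm] at h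
  have h1 := X.cxx
  have h2 := X.cR_nonneg
  have h3 := X.delta
  have h4 : x2 * B x x' ≤ 0 := mul_nonpos_of_nonneg_of_nonpos (by linarith [X.p2]) h1
  have h5 : (x2 * x1' - x1 * x2') * φ d1 * B x t ≤ 0 :=
    mul_nonpos_of_nonneg_of_nonpos (mul_nonneg h3.le X.h1) (by linarith)
  have h6 : (x2 * x1' - x1 * x2') * B x d1 ≤ 0 := by
    rw [h]
    linarith [X.p2']
  by_contra hcon
  rw [not_le] at hcon
  have := mul_pos h3 hcon
  linarith

/-- the real data -/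
structure AD (b1 b2 κ f g x1 x2 r1 r2 g' y1 y2 : ℝ) (R : ℝ → ℝ → ℝ → Prop) : Prop where
  C : Cfg b1 b2 0 R κ f g x1 x2 g' y1 y2
  f0 : 0 < f
  hb1 : 1 / 2 ≤ b1
  hb2 : 1 / 2 ≤ b2
  hX1 : x1 ≤ b1 * g
  hκ : 1 < 2 * b2 * κ
  foot : -b2 ≤ r2
  F1 : ∀ τ, -τ ≤ r2 → κ * (1 + (b1 * x1 + b2 * x2 - g)) - τ ≤ x2 - b2 * g
  F1' : ∀ τ, -τ < r2 → κ * (1 + (b1 * x1 + b2 * x2 - g)) - τ < x2 - b2 * g
  rx : g + x1 * r1 + x2 * r2 ≤ 1
  S2 : Str b2 (-κ) r2
  Sw : Str (2 * b1 ^ 2 + 2 * b2 ^ 2 - 1) (1 + 2 * b1 * f - 2 * b2 * κ) (1 + 2 * b1 * r1 + 2 * b2 * r2)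
  nf : ∀ k, sq b2 k ≠ κ * sq b2 (k + 1)

theorem Xs.cfg7 (X : Xs Ψ B ρ φ t d1 d2 x x' g x1 x2 g' x1' x2') :
    Cfg (-B t d1) (-B t d2) (-B d1 d2) (fun g x1 x2 => g • t + x1 • d1 + x2 • d2 ∈ Ψ)
      (-φ d2) (φ d1) g x1 x2 g' x1' x2' := by
  have hxm : g • t + x1 • d1 + x2 • d2 ∈ Ψ := by
    rw [← X.e]
    exact X.L.xm
  have hym : g' • t + x1' • d1 + x2' • d2 ∈ Ψ := by
    rw [← X.e']
    exact X.L.xm'
  have hBB := X.cxx
  rw [X.e, X.e', X.L.val_B] at hBB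
  have hg' : 0 ≤ g' := by
    rcases X.c'.zg with h | h <;> linarith
  refine ⟨rt_of_tri X.L.tri, hxm, hym, X.p1, X.p2, X.p1', X.p2', hg', X.h1, by linarith [X.h2], ?_, ?_,
    X.st, ?_, ?_⟩
  · have := X.c.fz
    linarith
  · have := X.c'.fz
    linarith
  · have := X.c.obt
    linarith
  · linarith

theorem Xs.ad (X : Xs Ψ B ρ φ t d1 d2 x x' g x1 x2 g' x1' x2') (h0 : B d1 d2 = 0) (hb1 : 1 / 2 ≤ -B t d1)
    (hb2 : 1 / 2 ≤ -B t d2) :
    AD (-B t d1) (-B t d2) (-φ d2) (φ d1) g x1 x2 (ρ d1) (ρ d2) g' x1' x2'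
      (fun g x1 x2 => g • t + x1 • d1 + x2 • d2 ∈ Ψ) := by
  have hR := rt_of_tri X.L.tri
  have C := X.cfg7
  have e0 : -B d1 d2 = 0 := by linarith
  rw [e0] at C
  have nf : ∀ k, sq (-B t d2) k ≠ -φ d2 * sq (-B t d2) (k + 1) := by
    intro k hk
    exact no_flat X.L X.e X.e' X.p1 X.p1' (hR.pencil k).1 (by linarith)
  have hκ : 1 < 2 * -B t d2 * -φ d2 := by
    by_contra hcon
    rw [not_lt] at hcon
    have s0 : sq (-B t d2) 0 = 0 := rfl
    have s1 : sq (-B t d2) 1 = 1 := rfl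
    have s2 : sq (-B t d2) 2 = 2 * -B t d2 := Pool.Agent.Helper80.DY.sq_two' _
    have h1 : 2 * -B t d2 * -φ d2 < 1 := by
      rcases hcon.lt_or_eq with h | h
      · exact h
      · exfalso
        refine nf 1 ?_
        rw [show 1 + 1 = 2 from rfl, s1, s2]
        linarith
    refine X.not_good_one h0 ⟨?_, ?_, ?_⟩
    · intro i hi
      rcases Nat.eq_zero_or_pos i with h | h
      · rw [h, zero_add, s1]
        norm_num
      · have : i = 1 := by omega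
        rw [this, show 1 + 1 = 2 from rfl, s2]
        linarith
    · intro i hi
      have : i = 0 := by omega
      rw [this, zero_add, s1, s0]
      linarith [X.h2]
    · rw [show 1 + 1 = 2 from rfl, s1, s2]
      linarith
  -- the root `w`
  have hw1 := hR.r2 _ _ _ (hR.r1 _ _ _ hR.e0)
  have e1 : 2 * -B t d1 * 1 + 2 * -B d1 d2 * 0 - 0 = 2 * -B t d1 := by ring
  have e2 : 2 * -B t d2 * 1 + 2 * -B d1 d2 * (2 * -B t d1 * 1 + 2 * -B d1 d2 * 0 - 0) - 0 =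
      2 * -B t d2 := by
    rw [e1, h0]
    ring
  rw [e2, e1] at hw1
  have hwn : (1 : ℝ) • t + (2 * -B t d1) • d1 + (2 * -B t d2) • d2 ≠ t := by
    intro h
    have h2 : (1 : ℝ) • t + (2 * -B t d1) • d1 + (2 * -B t d2) • d2 =
        (1 : ℝ) • t + (0 : ℝ) • d1 + (0 : ℝ) • d2 := by
      rw [h]
      module
    obtain ⟨-, h3, -⟩ := X.L.tri.coordW h2
    linarith
  have Sw := X.L.str _ hw1 ⟨1, _, _, rfl, Or.inr le_rfl, Or.inr (by linarith), Or.inr (by linarith)⟩ hwn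
  have e3 : -B t ((1 : ℝ) • t + (2 * -B t d1) • d1 + (2 * -B t d2) • d2) =
      2 * (-B t d1) ^ 2 + 2 * (-B t d2) ^ 2 - 1 := by
    have h := X.L.val_B 1 0 0 1 (2 * -B t d1) (2 * -B t d2)
    have : (1 : ℝ) • t + (0 : ℝ) • d1 + (0 : ℝ) • d2 = t := by module
    rw [this] at h
    rw [h]
    ring
  rw [e3, X.L.val_ρ, X.L.val_φ] at Sw
  have e4 : (1 : ℝ) + 2 * -B t d1 * φ d1 + 2 * -B t d2 * φ d2 =
      1 + 2 * -B t d1 * φ d1 - 2 * -B t d2 * -φ d2 := by ring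
  rw [e4] at Sw
  have S2 := X.L.str_2
  have e5 : φ d2 = -(-φ d2) := by ring
  rw [e5] at S2
  have eB : -B x t = -B t d1 * x1 + -B t d2 * x2 - g := by
    rw [X.Bxt]
    ring
  have eD : B x d2 = x2 - -B t d2 * g := by
    rw [X.Bxd2, h0]
    ring
  refine ⟨C, X.f_pos, hb1, hb2, ?_, hκ, ?_, ?_, ?_, ?_, S2, Sw, nf⟩
  · have h1 := X.Bxd1_nonpos
    rw [X.Bxd1, h0] at h1
    linarith
  · rw [neg_neg]
    exact X.L.foot.2
  · intro τ hτ
    have := X.F1 hτ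
    rw [eB, eD] at this
    exact this
  · intro τ hτ
    have := X.F1' hτ
    rw [eB, eD] at this
    exact this
  · have := X.rx_le
    rw [X.rx] at this
    exact this

end DY
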