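import Pool.Agent.Helper7.DY.AffA

/-!
# [GAP2] for spherical and affine labels, part B (MP_d13a5e_al)

Spherical labels, `(3,5)`, `(6,3)`.
-/

set_option autoImplicit false

namespace DY

open Set
open Pool.Agent.Helper62.DY (RT)
open Pool.Agent.Helper80.DY (Cfg fw fw_succ fb_one sq_two' sq_three' sq_four' sq_five')

variable {b1 b2 κ f g x1 x2 r1 r2 g' y1 y2 : ℝ} {R : ℝ → ℝ → ℝ → Prop}

theorem AD.nrm (A : AD b1 b2 κ f g x1 x2 r1 r2 g' y1 y2 R) :
    g ^ 2 + x1 ^ 2 + x2 ^ 2 - 2 * b1 * g * x1 - 2 * b2 * g * x2 = 1 := by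
  have := A.C.h.n _ _ _ A.C.hx
  linarith only [this]

theorem AD.w2 (A : AD b1 b2 κ f g x1 x2 r1 r2 g' y1 y2 R) : 1 ≤ 2 * b2 * g - x2 := by
  have h := A.C.one (k := 1) (by
    rw [show 1 + 1 = 2 from rfl, sq_two']
    have : sq b2 1 = 1 := rfl
    rw [this]
    linarith only [A.hκ])
  have e : fw b1 b2 0 x1 x2 g (1 + 1) = 2 * b2 * g - x2 := by
    have h1 := fw_succ b1 b2 0 x1 x2 g 0
    rw [show 0 + 2 = 1 + 1 from rfl, show 0 + 1 = 1 from rfl, fb_one] at h1
    rw [h1]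
    have e1 : fw b1 b2 0 x1 x2 g 1 = g := rfl
    have e0 : fw b1 b2 0 x1 x2 g 0 = x2 := rfl
    rw [e1, e0]
    ring
  rw [e] at h
  exact h

theorem AD.flt (A : AD b1 b2 κ f g x1 x2 r1 r2 g' y1 y2 R) : g < κ * x2 := by
  have h1 := A.C.e
  have h2 := mul_pos A.f0 (by linarith only [A.C.hx1] : 0 < x1)
  linarith only [h1, h2]

theorem AD.cR (A : AD b1 b2 κ f g x1 x2 r1 r2 g' y1 y2 R) : 0 ≤ b1 * x1 + b2 * x2 - g := by
  linarith only [A.C.obt]

theorem AD.g0 (A : AD b1 b2 κ f g x1 x2 r1 r2 g' y1 y2 R) : 0 < g := by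
  have h1 := A.w2
  have h2 := A.C.hx2
  have h3 := A.hb2
  by_contra hcon
  have := mul_nonpos_of_nonneg_of_nonpos (by linarith only [h3] : 0 ≤ 2 * b2) (not_lt.1 hcon)
  linarith only [h1, h2, this]

/-- spherical labels: `3 D ≤ b2 ^ 2`, `D = 1 - b1 ^ 2 - b2 ^ 2` -/
theorem AD.sph (A : AD b1 b2 κ f g x1 x2 r1 r2 g' y1 y2 R) :
    3 * (1 - b1 ^ 2 - b2 ^ 2) ≤ b2 ^ 2 := by
  have hn := A.nrm
  have hw := A.w2
  have hc := A.cR
  have hX := A.hX1
  have hg := A.g0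
  have hb1 := A.hb1
  have hb2 := A.hb2
  obtain ⟨D, hD⟩ : ∃ D, D = 1 - b1 ^ 2 - b2 ^ 2 := ⟨_, rfl⟩
  obtain ⟨X1, hX1⟩ : ∃ X1, X1 = b1 * g - x1 := ⟨_, rfl⟩
  obtain ⟨X2, hX2⟩ : ∃ X2, X2 = x2 - b2 * g := ⟨_, rfl⟩
  have n : X1 ^ 2 + X2 ^ 2 + D * g ^ 2 = 1 := by
    rw [hX1, hX2, hD]
    linear_combination hn
  have c : D * g ≤ b2 * X2 := by
    have h1 : b1 * x1 + b2 * x2 - g = b2 * X2 - b1 * X1 - D * g := by
      rw [hX1, hX2, hD]
      ring
    rw [h1] at hc
    have h2 : 0 ≤ b1 * X1 := mul_nonneg (by linarith only [hb1]) (by linarith only [hX, hX1])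
    linarith only [hc, h2]
  rw [← hD]
  rcases le_or_gt D 0 with h0 | h0
  · have := sq_nonneg b2
    linarith only [h0, this]
  have w : X2 ≤ b2 * g - 1 := by linarith
  -- `(b2 ^ 2 - D) g ≥ b2`
  have k1 : b2 ≤ (b2 ^ 2 - D) * g := by
    have := mul_le_mul_of_nonneg_left w (by linarith only [hb2] : 0 ≤ b2)
    linarith only [c, this]
  have hDg : 0 < D * g := mul_pos h0 hg
  have k2 : (D * g) ^ 2 ≤ (b2 * X2) ^ 2 := pow_le_pow_left₀ hDg.le c 2
  have k3 : (D * (D + b2 ^ 2)) * g ^ 2 ≤ b2 ^ 2 := by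
    have h1 := sq_nonneg X1
    have h2 : b2 ^ 2 * (X2 ^ 2 + D * g ^ 2) ≤ b2 ^ 2 * 1 :=
      mul_le_mul_of_nonneg_left (by linarith only [n, h1]) (sq_nonneg _)
    nlinarith only [k2, h2]
  have k4 : b2 ^ 2 ≤ ((b2 ^ 2 - D) * g) ^ 2 := pow_le_pow_left₀ (by linarith only [hb2]) k1 2
  have hb : 0 < b2 ^ 2 := by positivity
  have k5 : D * (D + b2 ^ 2) * b2 ^ 2 ≤ (b2 ^ 2 - D) ^ 2 * b2 ^ 2 := by
    have h1 : D * (D + b2 ^ 2) * b2 ^ 2 ≤ D * (D + b2 ^ 2) * ((b2 ^ 2 - D) * g) ^ 2 :=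
      mul_le_mul_of_nonneg_left k4 (by positivity)
    have h2 : (b2 ^ 2 - D) ^ 2 * ((D * (D + b2 ^ 2)) * g ^ 2) ≤ (b2 ^ 2 - D) ^ 2 * b2 ^ 2 :=
      mul_le_mul_of_nonneg_left k3 (sq_nonneg _)
    linarith only [h1, h2]
  have k6 := le_of_mul_le_mul_right k5 hb
  have k7 : b2 ^ 2 * (3 * D) ≤ b2 ^ 2 * b2 ^ 2 := by linarith only [k6]
  exact le_of_mul_le_mul_left k7 hb

/-- the labels `(6,3)` -/
theorem AD.h63 (A : AD b1 b2 κ f g x1 x2 r1 r2 g' y1 y2 R) (e1 : (2 * b1) ^ 2 = 3)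
    (e2 : b2 = 1 / 2) : False := by
  have hn := A.nrm
  have hw := A.w2
  have hc := A.cR
  have hX := A.hX1
  have hg := A.g0
  have hb1 := A.hb1
  have hF := A.F1 b2 A.foot
  have hfl := A.flt
  have hx2 := A.C.hx2
  obtain ⟨X1, hX1⟩ : ∃ X1, X1 = b1 * g - x1 := ⟨_, rfl⟩
  obtain ⟨X2, hX2⟩ : ∃ X2, X2 = x2 - b2 * g := ⟨_, rfl⟩
  have n : X1 ^ 2 + X2 ^ 2 = 1 := by
    rw [hX1, hX2]
    subst e2
    linear_combination hn + g ^ 2 / 4 * e1
  obtain ⟨c, hcd⟩ : ∃ c, c = b1 * x1 + b2 * x2 - g := ⟨_, rfl⟩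
  have c1 : c = 1 / 2 * X2 - b1 * X1 := by
    rw [hcd, hX1, hX2]
    subst e2
    linear_combination g / 4 * e1
  rw [← hcd] at hc hF
  rw [← hX2] at hF
  subst e2
  have hX10 : 0 ≤ X1 := by linarith
  -- `κ (1 + c) ≤ X2 + 1/2`
  have k1 : κ * (1 + c) ≤ X2 + 1 / 2 := by linarith only [hF]
  have k2 : g < κ * (X2 + g / 2) := by
    have : x2 = X2 + g / 2 := by linarith only [hX2]
    rw [← this]
    exact hfl
  have hx2' : 0 < X2 + g / 2 := by linarith only [hx2, hX2]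
  have k3 : g * (1 + c) < (X2 + 1 / 2) * (X2 + g / 2) := by
    have h1 := mul_lt_mul_of_pos_right k2 (by linarith only [hc] : 0 < 1 + c)
    have h2 := mul_le_mul_of_nonneg_right k1 hx2'.le
    linarith only [h1, h2]
  have hX20 : 0 ≤ X2 := by
    have := mul_nonneg (by linarith only [hb1] : 0 ≤ b1) hX10
    linarith only [hc, c1, this]
  have hX21 : X2 ≤ 1 := by nlinarith only [n]
  have k4 : 2 + 2 * X2 ≤ g := by linarith only [hw, hX2]
  have k5 : 0 < 3 / 4 + c - X2 / 2 := by linarith only [hc, hX21]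
  have k6 : (2 + 2 * X2) * (3 / 4 + c - X2 / 2) ≤ g * (3 / 4 + c - X2 / 2) :=
    mul_le_mul_of_nonneg_right k4 k5.le
  have k7 : 3 + 4 * c * (1 + X2) < 4 * X2 ^ 2 := by nlinarith
  -- `X2 > b1`, `X1 < 1/2`
  have k8 : 3 < 4 * X2 ^ 2 := by
    have := mul_nonneg (mul_nonneg (by norm_num : (0 : ℝ) ≤ 4) hc) (by linarith only [hX20] : 0 ≤ 1 + X2)
    linarith only [k7, this]
  have k9 : b1 < X2 := by
    by_contra hcon
    rw [not_lt] at hcon
    nlinarith only [e1, hX20, k8, hcon]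
  have k10 : X1 < 1 / 2 := by
    by_contra hcon
    rw [not_lt] at hcon
    nlinarith only [n, k8, hcon]
  have hb17 : 17 / 20 < b1 := by
    by_contra hcon
    rw [not_lt] at hcon
    nlinarith
  -- `4 c = 2 X2 - 4 b1 X1 ≥ 2 b1 (1 - 2 X1)`
  have k11 : 2 * b1 * (1 - 2 * X1) ≤ 4 * c := by
    rw [c1]
    linarith only [k9]
  have k12 : 2 * b1 * (1 - 2 * X1) * (1 + b1) ≤ 4 * c * (1 + X2) := by
    have h1 : 0 ≤ 2 * b1 * (1 - 2 * X1) := by
      have := mul_nonneg (by linarith only [hb17] : 0 ≤ 2 * b1) (by linarith only [k10] : 0 ≤ 1 - 2 * X1)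
      linarith only [this]
    exact mul_le_mul k11 (by linarith only [k9]) (by linarith only [hb17]) (by linarith only [k11, h1])
  have k13 : 4 * X2 ^ 2 - 3 = (1 - 2 * X1) * (1 + 2 * X1) := by
    linear_combination 4 * n
  have k14 : (1 - 2 * X1) * (1 + 2 * X1) ≤ (1 - 2 * X1) * (2 * b1 * (1 + b1)) := by
    apply mul_le_mul_of_nonneg_left _ (by linarith only [k10])
    nlinarith only [k10, hb17]
  linarith only [k7, k12, k13, k14]

/-- the labels `(3,5)` -/
theorem AD.h35 (A : AD b1 b2 κ f g x1 x2 r1 r2 g' y1 y2 R) (e1 : b1 = 1 / 2)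
    (e2 : (2 * b2) ^ 2 = 2 * b2 + 1) : False := by
  have C := A.C
  have hn := A.nrm
  have hw := A.w2
  have hc := A.cR
  have hX := A.hX1
  have hg := A.g0
  have hb2 := A.hb2
  have hfl := A.flt
  have hx1 := C.hx1
  have hx2 := C.hx2
  obtain ⟨p, hp⟩ : ∃ p, p = 2 * b2 := ⟨_, rfl⟩
  have hp1 : 1 ≤ p := by linarith only [hb2, hp]
  rw [← hp] at e2 hw
  have hpl : 8 / 5 < p := by
    by_contra hcon
    rw [not_lt] at hcon
    nlinarith only [e2, hp1, hcon]
  have hpu : p < 41 / 25 := by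
    by_contra hcon
    rw [not_lt] at hcon
    nlinarith only [e2, hcon]
  have eb : b2 = p / 2 := by linarith only [hp]
  subst e1
  -- `w_3`, `w_4`
  have R := C.h
  have m1 := R.r0 _ _ _ (R.r2 _ _ _ C.hx)
  have m2 := R.r2 _ _ _ m1
  have z4 := (R.z1 m2 (by linarith only [hx1])).2.2
  rw [← hp] at z4
  have w3 := R.z1 m1 (by linarith only [hx1])
  rw [← hp] at w3
  obtain ⟨u2, hu2⟩ : ∃ u2, u2 = p * g - x2 := ⟨_, rfl⟩
  obtain ⟨u3, hu3⟩ : ∃ u3, u3 = p * u2 + x1 - g := ⟨_, rfl⟩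
  obtain ⟨u4, hu4⟩ : ∃ u4, u4 = p * u3 - u2 := ⟨_, rfl⟩
  have q3 : 2 * (1 / 2) * x1 + p * (p * g + 2 * 0 * x1 - x2) - g = u3 := by
    rw [hu3, hu2]
    ring
  have q2 : p * g + 2 * 0 * x1 - x2 = u2 := by
    rw [hu2]
    ring
  rw [q3, q2] at w3 z4
  have q4 : p * u3 + 2 * 0 * x1 - u2 = u4 := by
    rw [hu4]
    ring
  rw [q4] at z4
  rw [← hu2] at hw
  rcases z4 with z4 | z4
  · -- `u4 = 0`
    have hu3p : 0 < u3 := by
      by_contra hcon
      rw [not_lt] at hcon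
      have := mul_nonpos_of_nonneg_of_nonpos (by linarith only [hpl] : 0 ≤ p) hcon
      linarith only [hw, q4, z4, this]
    have hu31 : 1 ≤ u3 := by
      rcases w3.1 with h | h
      · linarith only [hu3p, h]
      · exact h
    have n2 : u3 ^ 2 + x1 ^ 2 - x1 * u3 = 1 := by
      have e3 : u2 = p * u3 := by linarith only [q4, z4]
      have e4 : g = p * u2 + x1 - u3 := by linarith only [hu3]
      have e5 : x2 = p * g - u2 := by linarith only [q2]
      rw [eb] at hn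
      rw [e5, e4, e3] at hn
      have : p ^ 2 = p + 1 := e2
      linear_combination hn
    have n3 : (u3 - x1) ^ 2 + u3 * x1 = 1 := by linarith only [n2]
    have n4 : 1 ≤ u3 * x1 := by nlinarith only [w3, hu31]
    have hx11 : x1 = 1 := by nlinarith only [hu31, n3, n4, sq_nonneg (u3 - x1)]
    have hu3' : u3 = 1 := by nlinarith only [n3, n4, hx11, sq_nonneg (u3 - x1)]
    have hu2' : u2 = p := by
      rw [hu3'] at hu4
      linarith only [hu4, z4]
    have hg' : g = p + 1 := by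
      have h1 : g = p * u2 + x1 - u3 := by linarith only [hu3]
      rw [hu2', hx11, hu3'] at h1
      linarith only [e2, h1]
    have hx2' : x2 = p + 1 := by
      have h1 : x2 = p * g - u2 := by linarith only [q2]
      rw [hu2', hg'] at h1
      linarith
    -- `κ < p`
    have hF := A.F1 b2 A.foot
    rw [eb, hg', hx2', hx11] at hF
    have hk : κ ≤ 1 / 2 + p / 2 := by
      have h1 : κ * (1 + (1 / 2 * 1 + p / 2 * (p + 1) - (p + 1))) = κ := by
        linear_combination κ / 2 * e2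
      rw [h1] at hF
      have h2 : p + 1 - p / 2 * (p + 1) = 1 / 2 := by
        linear_combination (-1 / 2) * e2
      rw [h2] at hF
      linarith
    -- `x'`
    have hBB := C.BB
    rw [eb, hg', hx2', hx11] at hBB
    have h3 : (p - 1) * y1 ≥ y2 := by
      have h4 : (p + 1) * g' + 1 * y1 + (p + 1) * y2 - 1 / 2 * ((p + 1) * y1 + g' * 1) -
          p / 2 * ((p + 1) * y2 + g' * (p + 1)) - 0 * (1 * y2 + (p + 1) * y1) =
          y2 / 2 - (p - 1) / 2 * y1 := by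
        linear_combination (-(y2 / 2 + g' / 2)) * e2
      rw [h4] at hBB
      linarith only [hBB]
    have he' := C.e'
    have hy1 := C.hy1
    have hy2 := C.hy2
    have f0 := A.f0
    have hfy := mul_pos f0 (by linarith only [hy1] : 0 < y1)
    have hgp := C.hg'
    have hy2p : 0 < y2 := by
      rcases hy2.lt_or_eq with h | h
      · exact h
      · rw [← h, mul_zero] at he'
        linarith only [he', hfy, hgp]
    have k1 := (R.z2 (R.r1 _ _ _ C.hy) hy2p).2.1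
    have k2 : y1 ≤ g' := by
      rcases k1 with h | h <;> linarith only [h]
    have k3 : p * y2 ≤ y1 := by
      have h5 : p * y2 ≤ p * ((p - 1) * y1) := mul_le_mul_of_nonneg_left h3 (by linarith only [hpl])
      have h6 : p * ((p - 1) * y1) = y1 := by
        linear_combination y1 * e2
      linarith only [h5, h6]
    have k4 : κ * y2 < p * y2 := mul_lt_mul_of_pos_right (by linarith only [hpl, hk]) hy2p
    linarith only [he', hfy, k2, k3, k4]
  · -- `u4 ≥ 1`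
    have e4 : u4 = g - p * x2 + p * x1 := by
      rw [hu4, hu3, hu2]
      linear_combination (p * g - x2 + g) * e2
    have h1 : 2 * x1 ≤ g := by linarith only [hX]
    have h2 : 2 * g ≤ x1 + p * x2 := by
      rw [eb] at hc
      linarith only [hc]
    have h3 : g + 1 ≤ (p + 1) * x1 := by
      rw [e4] at z4
      linarith only [z4, h2]
    have h4 : 1 ≤ (p - 1) * x1 := by linarith only [h1, h3]
    have h5 : p ≤ x1 := by
      have h6 : p * 1 ≤ p * ((p - 1) * x1) := mul_le_mul_of_nonneg_left h4 (by linarith only [hpl])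
      have h7 : p * ((p - 1) * x1) = x1 := by
        linear_combination x1 * e2
      linarith only [h6, h7]
    have h6 : 2 * p ≤ g := by linarith
    -- the norm
    obtain ⟨X1, hX1⟩ : ∃ X1, X1 = 1 / 2 * g - x1 := ⟨_, rfl⟩
    obtain ⟨X2, hX2⟩ : ∃ X2, X2 = x2 - p / 2 * g := ⟨_, rfl⟩
    have n : X1 ^ 2 + X2 ^ 2 + (2 - p) / 4 * g ^ 2 = 1 := by
      rw [hX1, hX2]
      rw [eb] at hn
      linear_combination hn + g ^ 2 / 4 * e2
    have c : (2 - p) * g ≤ 2 * p * X2 := by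
      have h7 : (2 - p) * g = 2 * p * X2 - (2 * (x1 + p * x2) - 4 * g) + 2 * x1 - g := by
        rw [hX2]
        linear_combination g * e2
      have h8 : 0 ≤ 2 * (x1 + p * x2) - 4 * g := by linarith only [h2]
      linarith only [h1, h7, h8]
    have h7 : 0 < X2 := by
      have : 0 < (2 - p) * g := mul_pos (by linarith only [hpu]) hg
      have h8 : 0 < 2 * p * X2 := by linarith only [c, this]
      exact (mul_pos_iff_of_pos_left (by linarith only [hpl])).1 h8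
    have h8 : (2 - p) / 4 * (2 * p) ^ 2 ≤ (2 - p) / 4 * g ^ 2 := by
      apply mul_le_mul_of_nonneg_left _ (by linarith only [hpu])
      exact pow_le_pow_left₀ (by linarith only [hpl]) h6 2
    have h9 : (2 - p) / 4 * (2 * p) ^ 2 = 1 := by
      linear_combination (1 - p) * e2
    have h10 : 0 < X2 ^ 2 := by positivity
    linarith only [n, h8, h9, h10, sq_nonneg X1]

end DY
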