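import Pool.Agent.Helper7.DY.AffB

/-!
# [GAP2] for affine labels, part C: the translations and the labels `(3,6)` (MP_d13a5e_al)
-/

set_option autoImplicit false

namespace DY

open Set
open Pool.Agent.Helper62.DY (RT)
open Pool.Agent.Helper80.DY (Cfg sq_two' sq_three' sq_four' sq_five')

variable {b1 b2 κ f g x1 x2 r1 r2 g' y1 y2 : ℝ} {R : ℝ → ℝ → ℝ → Prop}

/-- a set of integral numbers closed under a translation -/
theorem step_aux {S : ℝ → Prop} (hS : ∀ y, S y → Z1 y ∨ Z1 (-y)) {σ : ℝ} (hst : ∀ y, S y → S (y - σ))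
    {y0 : ℝ} (h0 : S y0) (hy : 0 < y0) (hσ : 0 < σ) : 1 ≤ σ := by
  by_contra hcon
  rw [not_le] at hcon
  have hn : ∀ n : ℕ, S (y0 - n * σ) := by
    intro n
    induction n with
    | zero =>
      have : y0 - ((0 : ℕ) : ℝ) * σ = y0 := by simp
      rw [this]
      exact h0
    | succ n ih =>
      have h1 := hst _ ih
      have : y0 - (n : ℝ) * σ - σ = y0 - ((n + 1 : ℕ) : ℝ) * σ := by
        push_cast
        ring
      rw [this] at h1
      exact h1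
  have hex : ∃ n : ℕ, y0 ≤ n * σ := by
    obtain ⟨n, h⟩ := exists_nat_ge (y0 / σ)
    refine ⟨n, ?_⟩
    rw [div_le_iff₀ hσ] at h
    exact h
  classical
  have hs := Nat.find_spec hex
  have hmin := fun m => Nat.find_min hex (m := m)
  set N := Nat.find hex with hN
  have hN0 : N ≠ 0 := by
    intro h
    rw [h] at hs
    simp at hs
    linarith
  obtain ⟨M, hM⟩ := Nat.exists_eq_succ_of_ne_zero hN0
  have h1 := hmin M (by omega)
  rw [not_le] at h1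
  have hM' : (N : ℝ) = M + 1 := by
    rw [hM]
    push_cast
    ring
  rw [hM'] at hs
  have h2 := hn N
  rw [hM'] at h2
  have h3 : y0 - ((M : ℝ) + 1) * σ = 0 := by
    have k1 : (M : ℝ) * σ = ((M : ℝ) + 1) * σ - σ := by ring
    rcases hS _ h2 with (h | h) | (h | h)
    · exact h
    · linarith
    · linarith
    · linarith
  rw [h3] at h2
  have h4 := hst _ h2
  rcases hS _ h4 with (h | h) | (h | h) <;> linarith

/-- the step of a translation -/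
theorem rt_step (h : RT b1 b2 0 R) {X1 X2 σ α β : ℝ}
    (hm : ∀ g x1 x2, R g x1 x2 → b1 * g - x1 = X1 → x2 - b2 * g = X2 → R (g - α) (x1 - σ) (x2 - β))
    (e1 : b1 * α = σ) (e2 : b2 * α = β) (hx : R g x1 x2) (h1 : b1 * g - x1 = X1) (h2 : x2 - b2 * g = X2)
    (hp : 0 < x1) (hσ : 0 < σ) : 1 ≤ σ := by
  refine step_aux (S := fun y => ∃ g x2, R g y x2 ∧ b1 * g - y = X1 ∧ x2 - b2 * g = X2) ?_ ?_
    ⟨g, x2, hx, h1, h2⟩ hp hσ
  · rintro y ⟨g, x2, h3, -, -⟩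
    rcases h.z _ _ _ h3 with ⟨-, h4, -⟩ | ⟨-, h4, -⟩
    · exact Or.inl h4
    · exact Or.inr h4
  · rintro y ⟨g, x2, h3, h4, h5⟩
    refine ⟨g - α, x2 - β, hm _ _ _ h3 h4 h5, ?_, ?_⟩
    · rw [← h4, ← e1]
      ring
    · rw [← h5, ← e2]
      ring

/-- the translation `s_t s_w` -/
theorem rt_trans (h : RT b1 b2 0 R) (ha : b1 ^ 2 + b2 ^ 2 = 1) {c : ℝ} (hx : R g x1 x2)
    (hc : c = b1 * x1 + b2 * x2 - g) : R (g - 4 * c) (x1 - 4 * b1 * c) (x2 - 4 * b2 * c) := by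
  have k := h.r0 _ _ _ (h.r1 _ _ _ (h.r2 _ _ _ (h.r0 _ _ _ (h.r2 _ _ _ (h.r1 _ _ _ hx)))))
  have q1 : 2 * b1 * g + 2 * 0 * x2 - x1 = 2 * b1 * g - x1 := by ring
  rw [q1] at k
  have q2 : 2 * b2 * g + 2 * 0 * (2 * b1 * g - x1) - x2 = 2 * b2 * g - x2 := by ring
  rw [q2] at k
  have q3 : 2 * b1 * (2 * b1 * g - x1) + 2 * b2 * (2 * b2 * g - x2) - g = g - 2 * c := by
    rw [hc]
    linear_combination 4 * g * ha
  rw [q3] at k
  have q4 : 2 * b2 * (g - 2 * c) + 2 * 0 * (2 * b1 * g - x1) - (2 * b2 * g - x2) = x2 - 4 * b2 * c := by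
    ring
  rw [q4] at k
  have q5 : 2 * b1 * (g - 2 * c) + 2 * 0 * (x2 - 4 * b2 * c) - (2 * b1 * g - x1) = x1 - 4 * b1 * c := by
    ring
  rw [q5] at k
  have q6 : 2 * b1 * (x1 - 4 * b1 * c) + 2 * b2 * (x2 - 4 * b2 * c) - (g - 2 * c) = g - 4 * c := by
    linear_combination (-8) * c * ha - 2 * hc
  rw [q6] at k
  exact k

/-- the translation of `d1` for the labels `(3,6)` -/
theorem rt_trans36 (h : RT b1 b2 0 R) (e1 : b1 = 1 / 2) (e2 : (2 * b2) ^ 2 = 3) {X1 : ℝ} (hx : R g x1 x2)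
    (hX : X1 = b1 * g - x1) : R (g - 4 * X1) (x1 - 2 * X1) (x2 - 4 * b2 * X1) := by
  subst e1
  have k := h.r1 _ _ _ (h.r0 _ _ _ (h.r2 _ _ _ (h.r0 _ _ _ (h.r2 _ _ _ (h.r0 _ _ _ hx)))))
  have q1 : 2 * (1 / 2) * x1 + 2 * b2 * x2 - g = x1 + 2 * b2 * x2 - g := by ring
  rw [q1] at k
  have q2 : 2 * b2 * (x1 + 2 * b2 * x2 - g) + 2 * 0 * x1 - x2 = 2 * b2 * x1 + 2 * x2 - 2 * b2 * g := by
    linear_combination x2 * e2
  rw [q2] at k
  have q3 : 2 * (1 / 2) * x1 + 2 * b2 * (2 * b2 * x1 + 2 * x2 - 2 * b2 * g) - (x1 + 2 * b2 * x2 - g) =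
      3 * x1 + 2 * b2 * x2 - 2 * g := by
    linear_combination (x1 - g) * e2
  rw [q3] at k
  have q4 : 2 * b2 * (3 * x1 + 2 * b2 * x2 - 2 * g) + 2 * 0 * x1 - (2 * b2 * x1 + 2 * x2 - 2 * b2 * g) =
      x2 - 4 * b2 * X1 := by
    rw [hX]
    linear_combination x2 * e2
  rw [q4] at k
  have q5 : 2 * (1 / 2) * x1 + 2 * b2 * (x2 - 4 * b2 * X1) - (3 * x1 + 2 * b2 * x2 - 2 * g) =
      g - 4 * X1 := by
    rw [hX]
    linear_combination (2 * x1 - g) * e2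
  rw [q5] at k
  have q6 : 2 * (1 / 2) * (g - 4 * X1) + 2 * 0 * (x2 - 4 * b2 * X1) - x1 = x1 - 2 * X1 := by
    rw [hX]
    ring
  rw [q6] at k
  exact k

/-- the translation of `d1` for the labels `(4,4)` -/
theorem rt_trans44 (h : RT b1 b2 0 R) (e1 : (2 * b1) ^ 2 = 2) (e2 : b2 = b1) {X1 : ℝ} (hx : R g x1 x2)
    (hX : X1 = b1 * g - x1) : R (g - 4 * b1 * X1) (x1 - 2 * X1) (x2 - 2 * X1) := by
  subst e2
  have k := h.r1 _ _ _ (h.r0 _ _ _ (h.r2 _ _ _ (h.r0 _ _ _ hx)))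
  have q2 : 2 * b2 * (2 * b2 * x1 + 2 * b2 * x2 - g) + 2 * 0 * x1 - x2 = x2 - 2 * X1 := by
    rw [hX]
    linear_combination (x1 + x2) * e1
  rw [q2] at k
  have q3 : 2 * b2 * x1 + 2 * b2 * (x2 - 2 * X1) - (2 * b2 * x1 + 2 * b2 * x2 - g) = g - 4 * b2 * X1 := by
    ring
  rw [q3] at k
  have q4 : 2 * b2 * (g - 4 * b2 * X1) + 2 * 0 * (x2 - 2 * X1) - x1 = x1 - 2 * X1 := by
    rw [hX]
    linear_combination (2 * x1 - 2 * b2 * g) * e1
  rw [q4] at k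
  exact k

/-- the classification of the small labels -/
theorem lbl_cases {b a : ℝ} (h : RT a b 0 R) (hb : 1 / 2 ≤ b) (hs : b ^ 2 ≤ 3 / 4) :
    b = 1 / 2 ∨ (2 * b) ^ 2 = 2 ∨ (2 * b) ^ 2 = 2 * b + 1 ∨ (2 * b) ^ 2 = 3 := by
  have s3 := sq_three' b
  have s4 := sq_four' b
  have s5 := sq_five' b
  have p3 := h.pge 2
  have p4 := h.pge 3
  have p5 := h.pge 4
  rw [show 2 + 1 = 3 from rfl, s3] at p3
  rw [show 3 + 1 = 4 from rfl, s4] at p4
  rw [show 4 + 1 = 5 from rfl, s5] at p5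
  obtain ⟨s, hs'⟩ : ∃ s, s = 2 * b := ⟨_, rfl⟩
  have eb : b = s / 2 := by linarith
  rw [← hs'] at p3 p4 p5 ⊢
  have s1 : 1 ≤ s := by linarith
  have hs3 : s ^ 2 ≤ 3 := by
    rw [eb] at hs
    linarith
  rcases s1.lt_or_eq with h1 | h1
  · right
    have k3 := p3 (by nlinarith)
    have h2 : 2 ≤ s ^ 2 := by linarith
    rcases h2.lt_or_eq with h3 | h3
    · right
      have k4 := p4 (by nlinarith)
      -- `s ^ 2 ≥ s + 1`
      have h4 : 0 ≤ s ^ 2 - s - 1 := by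
        have h5 : 0 ≤ (s + 1) * (s ^ 2 - s - 1) := by
          have : (s + 1) * (s ^ 2 - s - 1) = s ^ 3 - 2 * s - 1 := by ring
          rw [this]
          linarith
        exact nonneg_of_mul_nonneg_right h5 (by linarith)
      rcases h4.lt_or_eq with h5 | h5
      · right
        have h6 : 0 < s ^ 4 - 3 * s ^ 2 + 1 := by
          have : s ^ 4 - 3 * s ^ 2 + 1 = (s ^ 2 - s - 1) * (s ^ 2 + s - 1) := by ring
          rw [this]
          exact mul_pos h5 (by nlinarith)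
        have k5 := p5 h6
        have h7 : 0 ≤ s ^ 2 * (s ^ 2 - 3) := by linarith
        have h8 := nonneg_of_mul_nonneg_right h7 (by positivity)
        linarith
      · left
        linarith
    · left
      exact h3.symm
  · left
    linarith

end DY
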