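import Pool.Agent.Helper7.DY.AffC

/-!
# [GAP2] for affine labels, part D: `(3,6)` and `(4,4)` (MP_d13a5e_al)
-/

set_option autoImplicit false

namespace DY

open Set
open Pool.Agent.Helper62.DY (RT)
open Pool.Agent.Helper80.DY (Cfg sq_two' sq_three' sq_four' sq_five')

variable {E : Type*} [AddCommGroup E] [Module ℝ E]
variable {b1 b2 κ f g x1 x2 r1 r2 g' y1 y2 : ℝ} {R : ℝ → ℝ → ℝ → Prop}

theorem sq_one_nat (k : ℕ) : sq 1 k = k ∧ sq 1 (k + 1) = k + 1 := by
  induction k with
  | zero =>
    constructor
    · have : sq 1 0 = 0 := rfl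
      rw [this]
      norm_num
    · have : sq 1 (0 + 1) = 1 := rfl
      rw [this]
      norm_num
  | succ k ih =>
    obtain ⟨i1, i2⟩ := ih
    constructor
    · rw [i2]
      push_cast
      ring
    · have : sq 1 (k + 1 + 1) = 2 * 1 * sq 1 (k + 1) - sq 1 k := rfl
      rw [this, i1, i2]
      push_cast
      ring

/-- the pencil of `t` and `w` for affine labels, index `1` -/
theorem Str.aff_one {fw rw : ℝ} (h : Str 1 fw rw) (h1 : fw < 0) (h2 : -(1 / 2) < fw) : 0 < rw := by
  have s0 : sq 1 0 = 0 := rfl
  have s1 : sq 1 1 = 1 := rfl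
  have s2 : sq 1 2 = 2 := by
    rw [sq_two']
    norm_num
  have h3 := h.nk h1 1 (by
    intro i hi
    rw [(sq_one_nat i).2]
    positivity) (by
    intro i hi
    have : i = 0 := by omega
    rw [this, zero_add, s1, s0]
    linarith only [h1]) (by
    rw [show 1 + 1 = 2 from rfl, s2, s1]
    linarith only [h2])
  rw [show 1 + 1 = 2 from rfl, s2, s1] at h3
  linarith only [h3]

/-- the pencil of `t` and `w` for affine labels -/
theorem Str.aff_gen {fw rw : ℝ} (h : Str 1 fw rw) (h1 : fw < 0) (h2 : -1 < fw) :
    ∃ k : ℕ, 1 ≤ k ∧ (k : ℝ) * (1 + fw) ≤ 1 ∧ 2 < ((k : ℝ) + 1) * (1 + rw) := by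
  rcases good_or_beyond 1 fw with ⟨k, hk⟩ | hb
  · have k1 := hk.pos h1
    refine ⟨k, k1, ?_, ?_⟩
    · obtain ⟨m, rfl⟩ := Nat.exists_eq_succ_of_ne_zero (by omega : k ≠ 0)
      have h3 := hk.hm m (by omega)
      rw [(sq_one_nat m).1, (sq_one_nat m).2] at h3
      push_cast
      linarith only [h3]
    · have h3 := hk.nk h h1
      rw [(sq_one_nat k).1, (sq_one_nat k).2] at h3
      linarith only [h3]
  · exfalso
    obtain ⟨n, hn⟩ := exists_nat_gt (1 / (1 + fw))
    have h3 := hb n (by
      intro i hi
      rw [(sq_one_nat i).2]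
      positivity)
    rw [(sq_one_nat n).1, (sq_one_nat n).2] at h3
    rw [div_lt_iff₀ (by linarith only [h2])] at hn
    linarith only [h2, hn, h3]

/-- the labels `(4,4)` -/
theorem AD.h44 (A : AD b1 b2 κ f g x1 x2 r1 r2 g' y1 y2 R) (e1 : (2 * b1) ^ 2 = 2)
    (e2 : b2 = b1) : False := by
  have C := A.C
  have hR := C.h
  have hn := A.nrm
  have hw := A.w2
  have hc := A.cR
  have hX := A.hX1
  have hg := A.g0
  have hfl := A.flt
  have hb1 := A.hb1
  have hx1 := C.hx1
  have hx2 := C.hx2
  have hκ := A.hκ
  have hft := A.foot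
  have hrx := A.rx
  have hSw := A.Sw
  have hS2 := A.S2
  have hnf := A.nf 2
  have hFf := A.F1 b2 A.foot
  have hF' := A.F1' (2 * b2 - 1)
  have hCe := C.e
  have f0 := A.f0
  subst e2
  obtain ⟨r, hr⟩ : ∃ r, r = 2 * b2 := ⟨_, rfl⟩
  have eb : b2 = r / 2 := by linarith only [hr]
  have e1' := e1
  rw [← hr] at e1
  have s3 := sq_three' b2
  have s2 := sq_two' b2
  have s1 : sq b2 1 = 1 := rfl
  have s0 : sq b2 0 = 0 := rfl
  rw [← hr] at s3 s2
  rw [show 2 + 1 = 3 from rfl, s2, s3] at hnf
  have hr1 : 7 / 5 < r := by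
    by_contra hcon
    rw [not_lt] at hcon
    have h3 := pow_le_pow_left₀ (by linarith only [hb1, hr]) hcon 2
    norm_num at h3
    linarith only [e1, h3]
  have hr2 : r < 71 / 50 := by
    by_contra hcon
    rw [not_lt] at hcon
    have h3 := pow_le_pow_left₀ (by norm_num) hcon 2
    norm_num at h3
    linarith only [e1, h3]
  obtain ⟨X1, hX1⟩ : ∃ X1, X1 = b2 * g - x1 := ⟨_, rfl⟩
  obtain ⟨X2, hX2⟩ : ∃ X2, X2 = x2 - b2 * g := ⟨_, rfl⟩
  have n : X1 ^ 2 + X2 ^ 2 = 1 := by
    rw [hX1, hX2]
    linear_combination hn + g ^ 2 / 2 * e1'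
  obtain ⟨c, hcd⟩ : ∃ c, c = b2 * x1 + b2 * x2 - g := ⟨_, rfl⟩
  have c1 : c = r / 2 * (X2 - X1) := by
    rw [hcd, hX1, hX2, eb]
    rw [eb] at e1'
    linear_combination g / 2 * e1
  have hX10 : 0 ≤ X1 := by linarith only [hX, hX1]
  rw [← hcd] at hc hFf hF'
  rw [← hX2] at hFf hF'
  have hX12 : 0 ≤ X2 - X1 := by
    rw [c1] at hc
    exact nonneg_of_mul_nonneg_right hc (by linarith only [hr1])
  have hX20 : 0 ≤ X2 := by linarith
  -- the translations
  have t1 : X1 = 0 ∨ 1 ≤ 2 * X1 := by
    rcases hX10.lt_or_eq with h | h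
    · right
      refine rt_step hR (X1 := X1) (X2 := X2) (α := 4 * b2 * X1) (β := 2 * X1) ?_ ?_ ?_ C.hx hX1.symm
        hX2.symm (by linarith only [hx1]) (by linarith only [h])
      · intro g x1 x2 k1 k2 k3
        exact rt_trans44 hR e1' rfl k1 k2.symm
      · linear_combination X1 * e1'
      · linear_combination X1 * e1'
    · exact Or.inl h.symm
  have t2 : X2 - X1 = 0 ∨ 1 ≤ 2 * (X2 - X1) := by
    rcases hX12.lt_or_eq with h | h
    · right
      have ha : b2 ^ 2 + b2 ^ 2 = 1 := by linear_combination e1' / 2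
      refine rt_step hR (X1 := X1) (X2 := X2) (α := 4 * c) (β := 4 * b2 * c) ?_ ?_ ?_ C.hx hX1.symm
        hX2.symm (by linarith only [hx1]) (by linarith only [h])
      · intro g x1 x2 k1 k2 k3
        have k4 := rt_trans hR ha k1 (c := c) (by
          rw [c1, ← k2, ← k3, eb]
          linear_combination (-(g / 2)) * e1)
        have k5 : x1 - 4 * b2 * c = x1 - 2 * (X2 - X1) := by
          rw [c1, eb]
          linear_combination (-(X2 - X1)) * e1
        rw [k5] at k4
        exact k4
      · rw [c1, eb]
        linear_combination (X2 - X1) * e1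
      · ring
    · exact Or.inl h.symm
  -- `κ < r`
  have hκr : κ ≤ r → κ < r := by
    intro h
    rcases h.lt_or_eq with h3 | h3
    · exact h3
    · exfalso
      apply hnf
      rw [h3]
      linear_combination (-r) * e1
  have hκ1 : 1 < r * κ := by
    rw [hr]
    exact hκ
  have key : κ < r → 1 - r < r2 := by
    intro h
    have h3 := hS2.nk (by linarith only [C.κ0]) 2 (by
      intro i hi
      have : i = 0 ∨ i = 1 ∨ i = 2 := by omega
      rcases this with h | h | h
      · rw [h, zero_add, s1]
        norm_num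
      · rw [h, show 1 + 1 = 2 from rfl, s2]
        linarith only [hr1]
      · rw [h, show 2 + 1 = 3 from rfl, s3, e1]
        norm_num) (by
      intro i hi
      have : i = 0 ∨ i = 1 := by omega
      rcases this with h | h
      · rw [h, zero_add, s1, s0]
        linarith only [C.κ0]
      · rw [h, show 1 + 1 = 2 from rfl, s2, s1]
        linarith only [hκ1]) (by
      rw [show 2 + 1 = 3 from rfl, s2, s3, e1]
      linarith only [h])
    rw [show 2 + 1 = 3 from rfl, s2, s3, e1] at h3
    linarith only [h3]
  have eg : g = r * x1 + r * X1 := by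
    rw [hX1, eb]
    linear_combination (-(g / 2)) * e1
  have ex2 : x2 = X2 + x1 + X1 := by
    have : x2 = X2 + r / 2 * g := by
      rw [hX2, eb]
      ring
    rw [this]
    nth_rewrite 1 [eg]
    linear_combination (x1 + X1) / 2 * e1
  rcases t1 with t1 | t1
  · -- `X1 = 0`, `X2 = 1`
    have hX21 : X2 = 1 := by
      rw [t1] at n
      have h3 : (X2 - 1) * (X2 + 1) = 0 := by linear_combination n
      rcases mul_eq_zero.1 h3 with h4 | h4 <;> linarith
    have hc2 : c = r / 2 := by
      rw [c1, hX21, t1]
      ring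
    have hw' : 2 ≤ x1 := by
      have h3 : 2 * b2 * g - x2 = x1 - 1 := by
        rw [← hr, ex2, eg, t1, hX21]
        linear_combination x1 * e1
      rw [h3] at hw
      linarith only [hw]
    rw [hc2, hX21] at hFf hF'
    have k1 : κ ≤ 1 := by
      by_contra hcon
      rw [not_le] at hcon
      have := mul_lt_mul_of_pos_right hcon (by linarith only [hr1] : 0 < 1 + r / 2)
      rw [eb] at hFf
      linarith only [hFf, this]
    have k2 := key (by linarith only [hr1, k1])
    have k3 := hF' (by rw [← hr]; linarith only [k2])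
    rw [← hr] at k3
    -- `κ (1 + r/2) < r`
    rw [eg, ex2, hX21, t1] at hfl
    have k4 : κ * (1 + r / 2) < r := by linarith only [k3]
    have k5 : (r * x1) * (1 + r / 2) < r * (1 + x1) := by
      have h3 := mul_lt_mul_of_pos_right hfl (by linarith only [hc, hc2] : 0 < 1 + r / 2)
      have h4 := mul_lt_mul_of_pos_right k4 (by linarith only [hw'] : 0 < 1 + x1)
      linarith only [h3, h4]
    have k6 : r * (x1 * (1 + r / 2)) < r * (1 + x1) := by linarith only [k5]
    have k7 := lt_of_mul_lt_mul_left k6 (by linarith only [hc, hc2])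
    have k8 : 2 * (7 / 5) ≤ x1 * r := mul_le_mul hw' hr1.le (by norm_num) (by linarith only [hw'])
    linarith only [k7, k8]
  · rcases t2 with t2 | t2
    · -- `X1 = X2 = r / 2`
      have hXe : X2 = X1 := by linarith only [t2]
      have hX1v : X1 = r / 2 := by
        rw [hXe] at n
        have h3 : (X1 - r / 2) * (X1 + r / 2) = 0 := by linear_combination n / 2 - e1 / 4
        rcases mul_eq_zero.1 h3 with h4 | h4 <;> linarith
      have hX2v : X2 = r / 2 := by linarith only [hXe, hX1v]
      have hc0 : c = 0 := by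
        rw [c1, hXe]
        ring
      rw [hc0, hX2v] at hFf hF'
      have k1 := hκr (by
        rw [eb] at hFf
        linarith only [hFf])
      have k2 := key k1
      have k3 := hF' (by rw [← hr]; linarith only [k2])
      rw [← hr] at k3
      have k3' : κ < 3 * r / 2 - 1 := by linarith only [k3]
      have eg' : g = r * x1 + 1 := by
        rw [eg, hX1v]
        linear_combination e1 / 2
      have ex2' : x2 = x1 + r := by
        rw [ex2, hX1v, hX2v]
        ring
      have hfl' := hfl
      rw [eg', ex2'] at hfl'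
      have k4 : x1 < 2 := by
        have h3 := mul_lt_mul_of_pos_right k3' (by linarith only [hx1, hr1] : 0 < x1 + r)
        have h4 : (3 * r / 2 - 1) * (x1 + r) = 3 - r + (3 * r / 2 - 1) * x1 := by
          linear_combination 3 / 2 * e1
        rw [h4] at h3
        have h5 : (1 - r / 2) * x1 < (1 - r / 2) * 2 := by linarith only [hfl', h3]
        exact lt_of_mul_lt_mul_left h5 (by linarith only [hr2])
      -- `x1 = r`
      have k5 := rt_trans44 hR e1' rfl C.hx hX1
      rw [hX1v] at k5
      have k6 : x1 = r := by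
        have h3 : x1 - 2 * (r / 2) = x1 - r := by ring
        rw [h3] at k5
        rcases hR.z _ _ _ k5 with ⟨-, h4, -⟩ | ⟨-, h4, -⟩
        · rcases h4 with h4 | h4
          · linarith only [h4]
          · linarith only [t1, hX1v, k4, h4]
        · rcases h4 with h4 | h4
          · linarith only [h4]
          · linarith only [hx1, hr2, h4]
      have eg3 : g = 3 := by
        rw [eg', k6]
        linear_combination e1
      have ex3 : x2 = 2 * r := by
        rw [ex2', k6]
        ring
      rw [eg3, ex3, k6] at hCe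
      -- `fw`
      have hfw : 1 + 2 * b2 * f - 2 * b2 * κ = r * κ - 2 := by
        rw [← hr]
        have h3 : r * f = 2 * r * κ - 3 := by linarith only [hCe]
        rw [h3]
        ring
      have hrk : r * κ < 3 - r := by
        have h3 := mul_lt_mul_of_pos_left k3' (by linarith only [ex2, t1, hXe, k6, ex3] : 0 < r)
        have h4 : r * (3 * r / 2 - 1) = 3 - r := by linear_combination 3 / 2 * e1
        linarith only [h3, h4]
      have hrk2 : 3 < 2 * (r * κ) := by
        have h3 := mul_pos f0 (by linarith only [t1, hX1v] : 0 < r)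
        linarith only [hCe, h3]
      have ha : 2 * b2 ^ 2 + 2 * b2 ^ 2 - 1 = 1 := by linear_combination e1'
      rw [ha, hfw] at hSw
      have h5 := hSw.aff_one (by linarith only [t1, hX1v, hrk]) (by linarith only [hrk2])
      rw [← hr] at h5
      rw [eg3, ex3, k6] at hrx
      -- `ρ x = 2 + ρ w + r r2`
      have h6 : r * (1 - r) < r * r2 := mul_lt_mul_of_pos_left k2 (by linarith only [t1, hX1v])
      have h7 : r * (1 - r) = r - 2 := by linear_combination -e1
      linarith only [hx1, hrx, k6, h5, h6, h7]
    · -- impossible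
      have h3 : 1 ≤ X2 := by linarith only [t1, t2]
      have h4 : 1 / 2 ≤ X1 := by linarith only [t1]
      have h5 : 1 ≤ X2 ^ 2 := one_le_pow₀ h3
      have h6 : 0 < X1 ^ 2 := by positivity
      linarith only [n, h5, h6]

/-- the labels `(3,6)` -/
theorem AD.h36 (A : AD b1 b2 κ f g x1 x2 r1 r2 g' y1 y2 R) (e1 : b1 = 1 / 2)
    (e2 : (2 * b2) ^ 2 = 3) : False := by
  have C := A.C
  have hR := C.h
  have hn := A.nrm
  have hc := A.cR
  have hX := A.hX1
  have hg := A.g0
  have hfl := A.flt
  have hb2 := A.hb2
  have hx1 := C.hx1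
  have hx2 := C.hx2
  have hκ := A.hκ
  have hrx := A.rx
  have hSw := A.Sw
  have hS2 := A.S2
  have hnf2 := A.nf 2
  have hnf3 := A.nf 3
  have hFf := A.F1 b2 A.foot
  have hF' := A.F1'
  have hCe := C.e
  have f0 := A.f0
  have κ0 := C.κ0
  have hxm := C.hx
  clear A C
  subst e1
  obtain ⟨q, hq⟩ : ∃ q, q = 2 * b2 := ⟨_, rfl⟩
  have eb : b2 = q / 2 := by linarith only [hq]
  have e2' := e2
  rw [← hq] at e2
  have s5 := sq_five' b2
  have s4 := sq_four' b2
  have s3 := sq_three' b2
  have s2 := sq_two' b2
  have s1 : sq b2 1 = 1 := rfl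
  have s0 : sq b2 0 = 0 := rfl
  rw [← hq] at s2
  have s3' : sq b2 3 = 2 := by
    rw [s3]
    linarith only [e2']
  have s4' : sq b2 4 = q := by
    rw [s4, ← hq]
    linear_combination q * e2
  have s5' : sq b2 5 = 1 := by
    rw [s5, ← hq]
    linear_combination q ^ 2 * e2
  clear s3 s4 s5
  rw [show 2 + 1 = 3 from rfl, s2, s3'] at hnf2
  rw [show 3 + 1 = 4 from rfl, s3', s4'] at hnf3
  have hq1 : 43 / 25 < q := by
    by_contra hcon
    rw [not_lt] at hcon
    have h3 := pow_le_pow_left₀ (by linarith only [hb2, eb]) hcon 2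
    norm_num at h3
    linarith only [e2, h3]
  have hq2 : q < 87 / 50 := by
    by_contra hcon
    rw [not_lt] at hcon
    have h3 := pow_le_pow_left₀ (by norm_num) hcon 2
    norm_num at h3
    linarith only [e2, h3]
  obtain ⟨X1, hX1⟩ : ∃ X1, X1 = 1 / 2 * g - x1 := ⟨_, rfl⟩
  obtain ⟨X2, hX2⟩ : ∃ X2, X2 = x2 - b2 * g := ⟨_, rfl⟩
  have n : X1 ^ 2 + X2 ^ 2 = 1 := by
    rw [hX1, hX2]
    linear_combination hn + g ^ 2 / 4 * e2'
  obtain ⟨c, hcd⟩ : ∃ c, c = 1 / 2 * x1 + b2 * x2 - g := ⟨_, rfl⟩
  have c1 : c = (q * X2 - X1) / 2 := by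
    rw [hcd, hX1, hX2, eb]
    linear_combination g / 4 * e2
  have hX10 : 0 ≤ X1 := by linarith only [hX, hX1]
  rw [← hcd] at hc hFf hF'
  rw [← hX2] at hFf hF'
  have hX20 : 0 ≤ X2 := by
    have h3 : 0 ≤ q * X2 := by linarith only [hc, c1, hX10]
    exact nonneg_of_mul_nonneg_right h3 (by linarith only [hq1])
  have hX21 : X2 ≤ 1 := by
    by_contra hcon
    rw [not_le] at hcon
    have h3 : 1 < X2 ^ 2 := one_lt_pow₀ hcon (by norm_num)
    linarith only [n, h3, sq_nonneg X1]
  have ha : (1 / 2 : ℝ) ^ 2 + b2 ^ 2 = 1 := by linear_combination e2' / 4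
  -- the translations
  have t1 : X1 = 0 ∨ 1 ≤ 2 * X1 := by
    rcases hX10.lt_or_eq with h | h
    · right
      refine rt_step hR (X1 := X1) (X2 := X2) (α := 4 * X1) (β := 4 * b2 * X1) ?_ ?_ ?_ hxm hX1.symm
        hX2.symm (by linarith only [hx1]) (by linarith only [h])
      · intro g x1 x2 k1 k2 k3
        exact rt_trans36 hR rfl e2' k1 k2.symm
      · ring
      · ring
    · exact Or.inl h.symm
  have t2' : R (g - 4 * c) (x1 - 2 * c) (x2 - 4 * b2 * c) := by
    have k4 := rt_trans hR ha hxm hcd
    have k5 : x1 - 4 * (1 / 2) * c = x1 - 2 * c := by ring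
    rw [k5] at k4
    exact k4
  have t2 : q * X2 - X1 = 0 ∨ 1 ≤ q * X2 - X1 := by
    have hc2 : 0 ≤ q * X2 - X1 := by linarith only [hc, c1]
    rcases hc2.lt_or_eq with h | h
    · right
      refine rt_step hR (X1 := X1) (X2 := X2) (α := 4 * c) (β := 4 * b2 * c) ?_ ?_ ?_ hxm hX1.symm
        hX2.symm (by linarith only [hx1]) (by linarith only [h])
      · intro g x1 x2 k1 k2 k3
        have k4 := rt_trans hR ha k1 (c := c) (by
          rw [c1, ← k2, ← k3, eb]
          linear_combination (-(g / 4)) * e2)
        have k5 : x1 - 4 * (1 / 2) * c = x1 - (q * X2 - X1) := by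
          rw [c1]
          ring
        rw [k5] at k4
        exact k4
      · rw [c1]
        ring
      · ring
    · exact Or.inl h.symm
  have eg : g = 2 * x1 + 2 * X1 := by linarith only [hX1]
  have ex2 : x2 = X2 + q * x1 + q * X1 := by
    have : x2 = X2 + q / 2 * g := by
      rw [hX2, eb]
      ring
    rw [this, eg]
    ring
  -- `κ > q / 2`
  have hκ2 : q < 2 * κ := by
    by_contra hcon
    rw [not_lt] at hcon
    have h3 : 2 * κ * x2 ≤ q * x2 := mul_le_mul_of_nonneg_right hcon (by linarith only [hx2])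
    have h4 : x1 < q * X2 - X1 := by
      rw [eg] at hfl
      rw [ex2] at h3 hfl
      have h5 : q * (X2 + q * x1 + q * X1) = q * X2 + 3 * x1 + 3 * X1 := by
        linear_combination (x1 + X1) * e2
      rw [h5] at h3
      linarith only [hfl, h3]
    have h5 : x1 - 2 * c < 0 := by
      rw [c1]
      linarith only [h4]
    have h6 : x1 - 2 * c ≤ -1 := by
      rcases hR.z _ _ _ t2' with ⟨-, h7, -⟩ | ⟨-, h7, -⟩
      · rcases h7 with h7 | h7 <;> linarith only [h5, h7]
      · rcases h7 with h7 | h7 <;> linarith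
    have h7 : q * X2 ≤ q * 1 := mul_le_mul_of_nonneg_left hX21 (by linarith only [hq1])
    rw [c1] at h6
    linarith only [hx1, hq2, hX10, h6, h7]
  have hκ1 : 1 < q * κ := by
    rw [hq]
    exact hκ
  have hn2 : ∀ i, i < 3 → sq b2 (i + 1) * -κ + sq b2 i ≤ 0 := by
    intro i hi
    have : i = 0 ∨ i = 1 ∨ i = 2 := by omega
    rcases this with h | h | h
    · rw [h, zero_add, s1, s0]
      linarith only [hq1, hκ2]
    · rw [h, show 1 + 1 = 2 from rfl, s2, s1]
      linarith only [hκ1]
    · rw [h, show 2 + 1 = 3 from rfl, s3', s2]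
      linarith only [hκ2]
  have hp2 : ∀ i, i ≤ 4 → 0 < sq b2 (i + 1) := by
    intro i hi
    have : i = 0 ∨ i = 1 ∨ i = 2 ∨ i = 3 ∨ i = 4 := by omega
    rcases this with h | h | h | h | h
    · rw [h, zero_add, s1]
      norm_num
    · rw [h, show 1 + 1 = 2 from rfl, s2]
      linarith only [hq1]
    · rw [h, show 2 + 1 = 3 from rfl, s3']
      norm_num
    · rw [h, show 3 + 1 = 4 from rfl, s4']
      linarith only [hq1]
    · rw [h, show 4 + 1 = 5 from rfl, s5']
      norm_num
  -- the two windows
  have W3 : q * κ < 2 → -(q / 3) < r2 := by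
    intro h
    have h3 := hS2.nk (by linarith only [hq1, hκ2]) 3 (fun i hi => hp2 i (by omega)) hn2 (by
      rw [show 3 + 1 = 4 from rfl, s3', s4']
      linarith only [h])
    rw [show 3 + 1 = 4 from rfl, s3', s4'] at h3
    have h4 : q * (-(q / 3)) < q * r2 := by
      have : q * (-(q / 3)) = -1 := by linear_combination (-1 / 3) * e2
      rw [this]
      linarith only [h3]
    exact lt_of_mul_lt_mul_left h4 (by linarith only [hq1])
  have W4 : 2 ≤ q * κ → κ < q → 1 - q < r2 := by
    intro h h'
    have h3 := hS2.nk (by linarith only [hκ2, h']) 4 hp2 (by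
      intro i hi
      have : i < 3 ∨ i = 3 := by omega
      rcases this with h6 | h6
      · exact hn2 i h6
      · rw [h6, show 3 + 1 = 4 from rfl, s3', s4']
        linarith only [h]) (by
      rw [show 4 + 1 = 5 from rfl, s5', s4']
      linarith only [h'])
    rw [show 4 + 1 = 5 from rfl, s5', s4'] at h3
    linarith only [h3]
  have haw : 2 * (1 / 2 : ℝ) ^ 2 + 2 * b2 ^ 2 - 1 = 1 := by linear_combination e2' / 2
  have hfw : 1 + 2 * (1 / 2) * f - 2 * b2 * κ = 1 + f - q * κ := by
    rw [← hq]
    ring
  have hrw : 1 + 2 * (1 / 2) * r1 + 2 * b2 * r2 = 1 + r1 + q * r2 := by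
    rw [← hq]
    ring
  rw [haw, hfw, hrw] at hSw
  rcases t1 with t1 | t1
  · -- `X1 = 0`, `X2 = 1`
    have hX2v : X2 = 1 := by
      rw [t1] at n
      have h3 : (X2 - 1) * (X2 + 1) = 0 := by linear_combination n
      rcases mul_eq_zero.1 h3 with h4 | h4 <;> linarith
    have hc2 : c = q / 2 := by
      rw [c1, hX2v, t1]
      ring
    rw [hc2, hX2v] at hFf
    have k1 : κ ≤ 1 := by
      by_contra hcon
      rw [not_le] at hcon
      have := mul_lt_mul_of_pos_right hcon (by linarith only [hc, hc2] : 0 < 1 + q / 2)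
      rw [eb] at hFf
      linarith only [hFf, this]
    have k2 := W3 (by
      have := mul_le_mul_of_nonneg_left k1 (by linarith only [hc, hc2] : 0 ≤ q)
      linarith only [hκ2, k1, this])
    have k3 := hF' (q / 3) k2
    rw [hc2, hX2v] at k3
    have k4 := mul_lt_mul_of_pos_right hκ2 (by linarith only [hc, hc2] : 0 < 1 + q / 2)
    have k5 : q * (1 + q / 2) = q + 3 / 2 := by linear_combination e2 / 2
    rw [k5] at k4
    linarith only [hq1, k3, k4]
  · rcases t2 with t2 | t2
    · -- `X1 = q / 2`, `X2 = 1 / 2`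
      have hX2v : X2 = 1 / 2 := by
        have h3 : X1 = q * X2 := by linarith only [t2]
        rw [h3] at n
        have h4 : (X2 - 1 / 2) * (X2 + 1 / 2) = 0 := by linear_combination n / 4 - X2 ^ 2 / 4 * e2
        rcases mul_eq_zero.1 h4 with h4 | h4 <;> linarith
      have hX1v : X1 = q / 2 := by
        rw [hX2v] at t2
        linarith only [t2]
      have hc0 : c = 0 := by
        rw [c1, t2]
        norm_num
      rw [hc0, hX2v, eb] at hFf
      have eg' : g = 2 * x1 + q := by
        rw [eg, hX1v]
        ring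
      have ex2' : x2 = 2 + q * x1 := by
        rw [ex2, hX1v, hX2v]
        linear_combination e2 / 2
      obtain ⟨e, he⟩ : ∃ e, e = 2 + f - q * κ := ⟨_, rfl⟩
      have hxe : x1 * e = 2 * κ - q := by
        rw [he]
        rw [eg', ex2'] at hCe
        linear_combination hCe
      have hes : e * (2 + q * x1) = 1 + 2 * f := by
        have : e * (2 + q * x1) = 2 * e + q * (x1 * e) := by ring
        rw [this, hxe, he]
        linear_combination (-1) * e2
      have hfw1 : 1 + f - q * κ = e - 1 := by
        rw [he]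
        ring
      rw [hfw1] at hSw
      have he0 : 0 < e := by
        have h3 : 0 < x1 * e := by
          rw [hxe]
          linarith only [hκ2]
        exact (mul_pos_iff_of_pos_left (by linarith only [hx1])).1 h3
      have hρ : q + x1 * (1 + (1 + r1 + q * r2)) + 2 * r2 ≤ 1 := by
        rw [eg', ex2'] at hrx
        linarith only [hrx]
      obtain ⟨u, hu⟩ : ∃ u, u = 1 + (1 + r1 + q * r2) := ⟨_, rfl⟩
      rw [← hu] at hρ
      rcases lt_or_ge (q * κ) 2 with h | h
      · have k1 := W3 h
        have he1 : e < 1 := by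
          have h3 : x1 * e < q / 3 := by
            rw [hxe]
            have h4 : q * (2 * κ) < q * (4 * q / 3) := by
              have : q * (4 * q / 3) = 4 := by linear_combination 4 / 3 * e2
              rw [this]
              linarith only [h]
            have := lt_of_mul_lt_mul_left h4 (by linarith only [t1, hX1v])
            linarith only [this]
          have h4 : 1 * e ≤ x1 * e := mul_le_mul_of_nonneg_right hx1 he0.le
          linarith only [hq2, h3, h4]
        obtain ⟨k, hk1, hk2, hk3⟩ := hSw.aff_gen (by linarith only [he1]) (by linarith only [he0])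
        rw [← hu] at hk3
        have hk2' : (k : ℝ) * e ≤ 1 := by
          have : 1 + (e - 1) = e := by ring
          rw [this] at hk2
          exact hk2
        have hk0 : (0 : ℝ) ≤ k := Nat.cast_nonneg k
        have hk4 : (k : ℝ) ≤ 2 + q * x1 := by
          have h3 := mul_le_mul_of_nonneg_right hk2' (by
            have := mul_pos (by linarith only [t1, hX1v] : 0 < q) (by linarith only [hx1] : 0 < x1)
            linarith only [this] : 0 ≤ 2 + q * x1)
          have h4 : (k : ℝ) * e * (2 + q * x1) = k * (1 + 2 * f) := by rw [← hes]; ring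
          rw [h4] at h3
          have := mul_nonneg hk0 f0.le
          linarith only [h3, this]
        have hu0 : 0 < u := by
          have h3 : 0 < ((k : ℝ) + 1) * u := by linarith only [hk3]
          exact (mul_pos_iff_of_pos_left (by linarith only [])).1 h3
        have h3 : ((k : ℝ) + 1) * u ≤ (3 + q * x1) * u :=
          mul_le_mul_of_nonneg_right (by linarith only [hk4]) hu0.le
        have h4 : 2 < (3 + q * x1) * u := by linarith only [hk3, h3]
        have h5 : x1 * u < 1 - q / 3 := by linarith only [hρ, k1]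
        have h6 : x1 * 2 < x1 * ((3 + q * x1) * u) := mul_lt_mul_of_pos_left h4 (by linarith only [hx1])
        have h7 : (x1 * u) * (3 + q * x1) < (1 - q / 3) * (3 + q * x1) :=
          mul_lt_mul_of_pos_right h5 (by
            have := mul_pos (by linarith only [t1, hX1v] : 0 < q) (by linarith only [hx1] : 0 < x1)
            linarith only [this])
        have h8 : (1 - q / 3) * (3 + q * x1) = 3 - q + q * x1 - x1 := by
          linear_combination (-(x1 / 3)) * e2
        rw [h8] at h7
        have h9 : (3 - q) * 1 ≤ (3 - q) * x1 := mul_le_mul_of_nonneg_left hx1 (by linarith only [hq2])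
        linarith only [h6, h7, h9]
      · have k1 := W4 h (by linarith only [hq1, hFf])
        have k2 := hF' (q - 1) (by linarith only [k1])
        rw [hc0, hX2v] at k2
        have he1 : e < 1 := by
          have h3 : x1 * e < q - 1 := by
            rw [hxe]
            linarith only [k2]
          have h4 : 1 * e ≤ x1 * e := mul_le_mul_of_nonneg_right hx1 he0.le
          linarith only [hq2, h3, h4]
        have he2 : q / 3 ≤ x1 * e := by
          rw [hxe]
          have h4 : q * (4 * q / 3) ≤ q * (2 * κ) := by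
            have : q * (4 * q / 3) = 4 := by linear_combination 4 / 3 * e2
            rw [this]
            linarith only [h]
          have := le_of_mul_le_mul_left h4 (by linarith only [t1, hX1v])
          linarith only [this]
        obtain ⟨k, hk1, hk2, hk3⟩ := hSw.aff_gen (by linarith only [he1]) (by linarith only [he0])
        rw [← hu] at hk3
        have hk2' : (k : ℝ) * e ≤ 1 := by
          have : 1 + (e - 1) = e := by ring
          rw [this] at hk2
          exact hk2
        have h5 : x1 * u < q - 1 := by linarith only [hρ, k1]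
        have hu0 : 0 < u := by
          have h3 : 0 < ((k : ℝ) + 1) * u := by linarith only [hk3]
          exact (mul_pos_iff_of_pos_left (by positivity)).1 h3
        rcases hk1.eq_or_lt with h6 | h6
        · rw [← h6] at hk3
          have h7 : 1 < u := by
            push_cast at hk3
            linarith only [hk3]
          have h8 : 1 * u ≤ x1 * u := mul_le_mul_of_nonneg_right hx1 hu0.le
          linarith only [hq2, h5, h7, h8]
        · have h7 : (2 : ℝ) ≤ k := by exact_mod_cast h6
          have h8 : ((k : ℝ) + 1) * u ≤ (3 / 2 * k) * u := mul_le_mul_of_nonneg_right (by linarith only [h7]) hu0.le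
          have h9 : 4 / 3 < (k : ℝ) * u := by linarith
          -- `x1 u > 4/3 x1 e`
          have h10 : (k : ℝ) * (4 / 3 * e) < k * u := by linarith only [hk2', h9]
          have h11 := lt_of_mul_lt_mul_left h10 (by linarith only [])
          have h12 : x1 * (4 / 3 * e) < x1 * u := mul_lt_mul_of_pos_left h11 (by linarith only [hx1])
          linarith only [hq2, he2, h5, h12]
    · -- `X1 = 1 / 2`, `X2 = q / 2`
      have h3 : q * (q / 2) ≤ q * X2 := by
        have : q * (q / 2) = 3 / 2 := by linear_combination e2 / 2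
        rw [this]
        linarith only [t1, t2]
      have h4 : q / 2 ≤ X2 := le_of_mul_le_mul_left h3 (by linarith only [hq1])
      have h5 : (q / 2) ^ 2 ≤ X2 ^ 2 := pow_le_pow_left₀ (by linarith only [hq1]) h4 2
      have h6 : (1 / 2) ^ 2 ≤ X1 ^ 2 := pow_le_pow_left₀ (by norm_num) (by linarith only [t1]) 2
      have h7 : (q / 2) ^ 2 = 3 / 4 := by linear_combination e2 / 4
      rw [h7] at h5
      have hX1v : X1 = 1 / 2 := by
        have h8 : (X1 - 1 / 2) * (X1 + 1 / 2) ≤ 0 := by
          have : (X1 - 1 / 2) * (X1 + 1 / 2) = X1 ^ 2 - 1 / 4 := by ring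
          rw [this]
          linarith only [n, h5]
        by_contra hcon
        have h9 : 1 / 2 < X1 := lt_of_le_of_ne (by linarith only [t1]) (Ne.symm hcon)
        have := mul_pos (by linarith only [h9] : 0 < X1 - 1 / 2) (by linarith only [h9] : 0 < X1 + 1 / 2)
        linarith only [h8, this]
      have hX2v : X2 = q / 2 := by
        by_contra hcon
        have h9 : q / 2 < X2 := lt_of_le_of_ne h4 (Ne.symm hcon)
        have h10 := mul_pos (by linarith only [h9] : 0 < X2 - q / 2) (by linarith only [hq1, h9] : 0 < X2 + q / 2)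
        have h11 : (X2 - q / 2) * (X2 + q / 2) = X2 ^ 2 - 3 / 4 := by linear_combination (-1 / 4) * e2
        rw [h11] at h10
        rw [hX1v] at n
        linarith only [n, h10]
      have hc0 : c = 1 / 2 := by
        rw [c1, hX1v, hX2v]
        linear_combination e2 / 4
      rw [hc0, hX2v, eb] at hFf
      have k1 : q * κ < 2 := by
        have h8 : q * κ ≤ 2 := by
          have h9 : κ ≤ 2 * q / 3 := by linarith only [hFf]
          have h10 := mul_le_mul_of_nonneg_left h9 (by linarith only [hFf, hκ2] : 0 ≤ q)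
          have h11 : q * (2 * q / 3) = 2 := by linear_combination 2 / 3 * e2
          linarith only [h10, h11]
        rcases h8.lt_or_eq with h9 | h9
        · exact h9
        · exfalso
          apply hnf3
          linarith only [h9]
      have k2 := W3 k1
      have k3 := hF' (q / 3) k2
      rw [hc0, hX2v] at k3
      have k4 : κ < 5 * q / 9 := by linarith only [k3]
      have eg' : g = 2 * x1 + 1 := by
        rw [eg, hX1v]
        ring
      have ex2' : x2 = q * (1 + x1) := by
        rw [ex2, hX1v, hX2v]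
        ring
      have k5 : x1 < 2 := by
        rw [eg', ex2'] at hfl
        have h8 := mul_lt_mul_of_pos_right k4 (by
          have := mul_pos (by linarith only [hκ2, k4] : 0 < q) (by linarith only [hx1] : 0 < 1 + x1)
          linarith only [this] : 0 < q * (1 + x1))
        have h9 : 5 * q / 9 * (q * (1 + x1)) = 5 / 3 * (1 + x1) := by
          linear_combination 5 / 9 * (1 + x1) * e2
        linarith only [hfl, h8, h9]
      have k6 : x1 = 1 := by
        rw [hc0] at t2'
        have h8 : x1 - 2 * (1 / 2) = x1 - 1 := by ring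
        rw [h8] at t2'
        rcases hR.z _ _ _ t2' with ⟨-, h9, -⟩ | ⟨-, h9, -⟩
        · rcases h9 with h9 | h9
          · linarith only [h9]
          · linarith only [k5, h9]
        · rcases h9 with h9 | h9
          · linarith only [h9]
          · linarith only [hx1, h9]
      rw [k6] at eg' ex2'
      rw [eg', ex2', k6] at hCe hrx
      have k7 := hSw.aff_one (by linarith only [hCe, k1]) (by linarith only [f0, hCe])
      have k8 : q * (-(q / 3)) < q * r2 := mul_lt_mul_of_pos_left k2 (by linarith only [hκ2, k3])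
      have k9 : q * (-(q / 3)) = -1 := by linear_combination (-1 / 3) * e2
      linarith only [hrx, k7, k8, k9]

/-- **(e)** spherical and affine labels -/
theorem g2e (Ψ : Set E) (B : E →ₗ[ℝ] E →ₗ[ℝ] ℝ) : G2e Ψ B := by
  intro ρ φ t d1 d2 x x' g x1 x2 g' x1' x2' X h0 hb1 hb2 hq
  have A := X.ad h0 hb1 hb2
  have hsph := A.sph
  have hR := A.C.h
  generalize -B t d1 = b1 at *
  generalize -B t d2 = b2 at *
  have c2 := lbl_cases hR hb2 (by nlinarith only [hb1, hq])
  have c1 := lbl_cases hR.swap hb1 (by nlinarith only [hb2, hq])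
  have p1 : (1 / 2) ^ 2 ≤ b1 ^ 2 := pow_le_pow_left₀ (by norm_num) hb1 2
  have p2 : (1 / 2) ^ 2 ≤ b2 ^ 2 := pow_le_pow_left₀ (by norm_num) hb2 2
  rcases c1 with h1 | h1 | h1 | h1
  · rcases c2 with h2 | h2 | h2 | h2
    · rw [h1, h2] at hsph
      norm_num at hsph
    · rw [h1] at hsph
      nlinarith only [hsph, h2]
    · exact A.h35 h1 h2
    · exact A.h36 h1 h2
  · rcases c2 with h2 | h2 | h2 | h2
    · rw [h2] at hsph
      nlinarith only [hsph, h1]
    · refine A.h44 h1 ?_
      have h3 : (b2 - b1) * (b2 + b1) = 0 := by linear_combination h2 / 4 - h1 / 4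
      rcases mul_eq_zero.1 h3 with h4 | h4 <;> linarith
    · nlinarith only [hq, p2, h1, h2]
    · nlinarith only [hq, h1, h2]
  · rcases c2 with h2 | h2 | h2 | h2
    · rw [h2] at hsph
      exfalso
      -- `(2 b1)^2 = 2 b1 + 1 < 8/3`
      have h3 : 5 / 6 ≤ b1 := by
        nlinarith only [hsph, h1]
      nlinarith only [h1, h3]
    · nlinarith only [hq, p1, h1, h2]
    · nlinarith only [hb2, hq, p1, h1, h2]
    · nlinarith only [hq, p1, h1, h2]
  · rcases c2 with h2 | h2 | h2 | h2
    · exact A.h63 h1 h2
    · nlinarith only [hq, h1, h2]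
    · nlinarith only [hq, p2, h1, h2]
    · nlinarith only [hq, h1, h2]

end DY
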