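import Pool.Agent.Helper7.DY.Crd

/-!
# Case III and the assembly of the cases (MP_d13a5e_al)
-/

namespace DY

open Set

variable {E : Type*} [AddCommGroup E] [Module ℝ E]
variable {Ψ : Set E} {B : E →ₗ[ℝ] E →ₗ[ℝ] ℝ} {ρ φ : E →ₗ[ℝ] ℝ} {t d1 d2 x x' : E}

private theorem z1_nonneg' {α : ℝ} (h : Z1 α) : 0 ≤ α := by
  rcases h with h | h <;> linarith

/-- a simple root in the span of `x` and `x'` is one of them -/
theorem Loc.simple_mem (L : Loc Ψ B ρ φ t d1 d2 x x') {g x1 x2 g' x1' x2' : ℝ}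
    (e : x = g • t + x1 • d1 + x2 • d2) (e' : x' = g' • t + x1' • d1 + x2' • d2)
    (z1 : 0 ≤ x1) (z2 : 0 ≤ x2) (z1' : 0 ≤ x1') (z2' : 0 ≤ x2')
    (h : φ d1 = 0) : d1 = x ∨ d1 = x' := by
  have hdet := L.det_ne e e'
  obtain ⟨α, β, h1⟩ := L.sp d1 L.tri.hb
  rw [h, zero_smul, add_zero] at h1
  have h2 : (0 : ℝ) • t + (1 : ℝ) • d1 + (0 : ℝ) • d2 =
      (α * g + β * g') • t + (α * x1 + β * x1') • d1 + (α * x2 + β * x2') • d2 := by
    have h3 : (0 : ℝ) • t + (1 : ℝ) • d1 + (0 : ℝ) • d2 = d1 := by module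
    have h4 : (α * g + β * g') • t + (α * x1 + β * x1') • d1 + (α * x2 + β * x2') • d2 =
        α • (g • t + x1 • d1 + x2 • d2) + β • (g' • t + x1' • d1 + x2' • d2) := by module
    rw [h3, h4, ← e, ← e']
    exact h1
  obtain ⟨-, k1, k2⟩ := L.tri.coordW h2
  rcases L.cxx d1 L.tri.hb α β h1 with (⟨h5, h6⟩ | ⟨h5, h6⟩ | ⟨h5, h6⟩) | (⟨h5, h6⟩ | ⟨h5, h6⟩ | ⟨h5, h6⟩)
  · right
    rw [h1, h5, h6]
    module
  · left
    rw [h1, h5, h6]
    module
  · exfalso
    have h7 : x2 = 0 := by nlinarith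
    have h8 : x2' = 0 := by nlinarith
    apply hdet
    rw [h7, h8]
    ring
  · exfalso
    have h7 : α = 0 := by linarith
    have h8 : β = -1 := by linarith
    rw [h7, h8] at k1
    linarith
  · exfalso
    have h7 : α = -1 := by linarith
    have h8 : β = 0 := by linarith
    rw [h7, h8] at k1
    linarith
  · exfalso
    nlinarith

/-- **Case III** -/
theorem Loc.case3 (L : Loc Ψ B ρ φ t d1 d2 x x') (h1 : 0 ≤ φ d1) (h2 : 0 ≤ φ d2) : False := by
  obtain ⟨g, x1, x2, g', x1', x2', e, e', c, c', -, -⟩ := L.crd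
  have hdet := L.det_ne e e'
  have n0 := z1_nonneg' c.zg
  have n1 := z1_nonneg' c.z1
  have n2 := z1_nonneg' c.z2
  have n0' := z1_nonneg' c'.zg
  have n1' := z1_nonneg' c'.z1
  have n2' := z1_nonneg' c'.z2
  have f := c.fz
  have f' := c'.fz
  have a1 := mul_nonneg h1 n1
  have a2 := mul_nonneg h2 n2
  have a1' := mul_nonneg h1 n1'
  have a2' := mul_nonneg h2 n2'
  have p1 : φ d1 = 0 := by
    by_contra hne
    have h3 : 0 < φ d1 := lt_of_le_of_ne h1 (Ne.symm hne)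
    have h4 : x1 = 0 := by
      have : φ d1 * x1 = 0 := by linarith
      rcases mul_eq_zero.1 this with h5 | h5
      · exact absurd h5 hne
      · exact h5
    have h4' : x1' = 0 := by
      have : φ d1 * x1' = 0 := by linarith
      rcases mul_eq_zero.1 this with h5 | h5
      · exact absurd h5 hne
      · exact h5
    apply hdet
    rw [h4, h4']
    ring
  have p2 : φ d2 = 0 := by
    by_contra hne
    have h4 : x2 = 0 := by
      have : φ d2 * x2 = 0 := by linarith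
      rcases mul_eq_zero.1 this with h5 | h5
      · exact absurd h5 hne
      · exact h5
    have h4' : x2' = 0 := by
      have : φ d2 * x2' = 0 := by linarith
      rcases mul_eq_zero.1 this with h5 | h5
      · exact absurd h5 hne
      · exact h5
    apply hdet
    rw [h4, h4']
    ring
  have m1 := L.simple_mem e e' n1 n2 n1' n2' p1
  have s2 : x = g • t + x2 • d2 + x1 • d1 := by rw [e]; abel
  have s2' : x' = g' • t + x2' • d2 + x1' • d1 := by rw [e']; abel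
  have m2 := L.swap.simple_mem s2 s2' n2 n1 n2' n1' p2
  have hne : d1 ≠ d2 := by
    rintro h
    have := L.tri.indep 0 1 (-1) (by rw [h]; module)
    linarith [this.2.1]
  rcases m1 with m1 | m1 <;> rcases m2 with m2 | m2
  · exact hne (m1.trans m2.symm)
  · exact L.nch ⟨m1.symm, m2.symm⟩
  · exact L.nch' ⟨m2.symm, m1.symm⟩
  · exact hne (m1.trans m2.symm)

/-- the assembly of the cases -/
theorem not_loc (hI : ∀ (ρ φ : E →ₗ[ℝ] ℝ) (t d1 d2 x x' : E), Loc Ψ B ρ φ t d1 d2 x x' → φ d1 < 0 →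
      φ d2 < 0 → False)
    (hII : ∀ (ρ φ : E →ₗ[ℝ] ℝ) (t d1 d2 x x' : E), Loc Ψ B ρ φ t d1 d2 x x' → 0 ≤ φ d1 →
      φ d2 < 0 → False) (ρ φ : E →ₗ[ℝ] ℝ) (t d1 d2 x x' : E) : ¬ Loc Ψ B ρ φ t d1 d2 x x' := by
  intro L
  rcases lt_or_ge (φ d1) 0 with h1 | h1
  · rcases lt_or_ge (φ d2) 0 with h2 | h2
    · exact hI _ _ _ _ _ _ _ L h1 h2
    · exact hII _ _ _ _ _ _ _ L.swap h2 h1
  · rcases lt_or_ge (φ d2) 0 with h2 | h2
    · exact hII _ _ _ _ _ _ _ L h1 h2
    · exact L.case3 h1 h2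

end DY
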