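import Pool.Agent.Helper7.DY.Star

/-!
# Coordinates of `x`, `x'` in the chamber of the foot (MP_d13a5e_al)

`Crd b1 b2 b0 q1 q2 r1 r2 g x1 x2`: the coordinates `g, x1, x2` of a positive root `v ≠ t` in the simple system
`t, d1, d2`, canonical with `t` and with `φ v = 0`.  Here `bi = -B t di`, `b0 = -B d1 d2`, `qi = -φ di`,
`ri = ρ di`.
-/

namespace DY

open Set

variable {E : Type*} [AddCommGroup E] [Module ℝ E]
variable {Ψ : Set E} {B : E →ₗ[ℝ] E →ₗ[ℝ] ℝ} {ρ φ : E →ₗ[ℝ] ℝ} {t d1 d2 x x' : E}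

/-- labels of a simple system: `zi : 2 b = 0` or `2 b >= 1`; foot constraints -/
structure Lbl (b1 b2 b0 r1 r2 : ℝ) : Prop where
  z1 : Z1 (2 * b1)
  z2 : Z1 (2 * b2)
  z0 : Z1 (2 * b0)
  f1 : -b1 ≤ r1
  f2 : -b2 ≤ r2

/-- coordinates of a root in `t, d1, d2` -/
structure Crd (b1 b2 b0 q1 q2 g x1 x2 : ℝ) : Prop where
  zg : Z1 g
  z1 : Z1 x1
  z2 : Z1 x2
  nrm : g ^ 2 + x1 ^ 2 + x2 ^ 2 - 2 * b1 * g * x1 - 2 * b2 * g * x2 - 2 * b0 * x1 * x2 = 1
  obt : g ≤ b1 * x1 + b2 * x2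
  rg : Z1 (2 * b1 * x1 + 2 * b2 * x2 - g)
  r1 : (g = 0 ∧ x1 = 1 ∧ x2 = 0) ∨ Z1 (2 * b1 * g + 2 * b0 * x2 - x1)
  r2 : (g = 0 ∧ x1 = 0 ∧ x2 = 1) ∨ Z1 (2 * b2 * g + 2 * b0 * x1 - x2)
  fz : g = q1 * x1 + q2 * x2

theorem Loc.swap (L : Loc Ψ B ρ φ t d1 d2 x x') : Loc Ψ B ρ φ t d2 d1 x x' := by
  have hC : C01 t d2 d1 = C01 t d1 d2 := by
    ext u
    constructor
    · rintro ⟨α, β, γ, e, h1, h2, h3⟩
      exact ⟨α, γ, β, by rw [e]; abel, h1, h3, h2⟩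
    · rintro ⟨α, β, γ, e, h1, h2, h3⟩
      exact ⟨α, γ, β, by rw [e]; abel, h1, h3, h2⟩
  have hT : Tri Ψ B t d2 d1 := (L.tri.swapW.swapW').swapW
  refine ⟨hT, ⟨L.adm.fin, ?_⟩, L.rt, L.ft, L.fx, L.fx', L.xm, L.xm', ?_, ?_, L.cxx, L.cxt, L.cxt',
    L.ind, L.sp, L.rx, L.rx', L.pos, L.sum, L.nch', L.nch, ?_⟩
  · rw [hC]
    exact L.adm.neg
  · rw [hC]
    exact L.xp
  · rw [hC]
    exact L.xp'
  · rw [hC]
    exact L.str

theorem Loc.swapx (L : Loc Ψ B ρ φ t d1 d2 x x') : Loc Ψ B ρ φ t d1 d2 x' x := by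
  refine ⟨L.tri, L.adm, L.rt, L.ft, L.fx', L.fx, L.xm', L.xm, L.xp', L.xp, L.cxx.symm, L.cxt', L.cxt,
    ?_, ?_, L.rx', L.rx, by linarith [L.pos], by linarith [L.sum], ?_, ?_, L.str⟩
  · intro α β γ h
    obtain ⟨h1, h2, h3⟩ := L.ind β α γ (by rw [← h]; abel)
    exact ⟨h2, h1, h3⟩
  · intro u hu
    obtain ⟨α, β, h⟩ := L.sp u hu
    refine ⟨β, α, ?_⟩
    rw [add_comm (β • x') (α • x)]
    exact h
  · rintro ⟨h1, h2⟩
    exact L.nch' ⟨h2, h1⟩
  · rintro ⟨h1, h2⟩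
    exact L.nch ⟨h2, h1⟩

private theorem z1_two {a b c : E} (h : Tri Ψ B a b c) : Z1 (2 * -B a b) := by
  have hne : b ≠ a := by
    rintro rfl
    have := h.indep 1 (-1) 0 (by module)
    linarith [this.1]
  obtain ⟨α, β, γ, e, h1, h2, h3⟩ := h.rf_posW h.hb ⟨0, 1, 0, by simp, Or.inl rfl, Or.inr le_rfl,
    Or.inl rfl⟩ hne
  have e1 : (2 * -B a b) • a + (1 : ℝ) • b + (0 : ℝ) • c = α • a + β • b + γ • c := by
    rw [← e]
    unfold DY.rf
    module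
  obtain ⟨k1, -, -⟩ := h.coordW e1
  rw [k1]
  exact h1

theorem Loc.foot (L : Loc Ψ B ρ φ t d1 d2 x x') : B t d1 ≤ ρ d1 ∧ B t d2 ≤ ρ d2 := by
  have h1 : d1 ∈ C01 t d1 d2 := ⟨0, 1, 0, by simp, Or.inl rfl, Or.inr le_rfl, Or.inl rfl⟩
  have h2 : d2 ∈ C01 t d1 d2 := ⟨0, 0, 1, by simp, Or.inl rfl, Or.inl rfl, Or.inr le_rfl⟩
  have n1 : d1 ≠ t := by
    rintro h
    have := L.tri.indep 1 (-1) 0 (by rw [h]; module)
    linarith [this.1]
  have n2 : d2 ≠ t := by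
    rintro h
    have := L.tri.indep 1 0 (-1) (by rw [h]; module)
    linarith [this.1]
  have k1 := (L.str d1 L.tri.hb h1 n1).foot
  have k2 := (L.str d2 L.tri.hc h2 n2).foot
  rw [neg_neg] at k1 k2
  exact ⟨k1, k2⟩

theorem Loc.lbl (L : Loc Ψ B ρ φ t d1 d2 x x') :
    Lbl (-B t d1) (-B t d2) (-B d1 d2) (ρ d1) (ρ d2) := by
  obtain ⟨k1, k2⟩ := L.foot
  have h3 : Tri Ψ B d1 d2 t := L.tri.swapW'.swapW
  exact ⟨z1_two L.tri, z1_two L.swap.tri, z1_two h3, by linarith, by linarith⟩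

/-- values in coordinates -/
theorem Loc.val_ρ (L : Loc Ψ B ρ φ t d1 d2 x x') (g x1 x2 : ℝ) :
    ρ (g • t + x1 • d1 + x2 • d2) = g + x1 * ρ d1 + x2 * ρ d2 := by
  rw [map_add, map_add, map_smul, map_smul, map_smul, L.rt]
  simp only [smul_eq_mul]
  ring

theorem Loc.val_φ (L : Loc Ψ B ρ φ t d1 d2 x x') (g x1 x2 : ℝ) :
    φ (g • t + x1 • d1 + x2 • d2) = g + x1 * φ d1 + x2 * φ d2 := by
  rw [map_add, map_add, map_smul, map_smul, map_smul, L.ft]
  simp only [smul_eq_mul]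
  ring

theorem Loc.val_B (L : Loc Ψ B ρ φ t d1 d2 x x') (g x1 x2 y0 y1 y2 : ℝ) :
    B (g • t + x1 • d1 + x2 • d2) (y0 • t + y1 • d1 + y2 • d2) = g * y0 + x1 * y1 + x2 * y2 +
      B t d1 * (g * y1 + x1 * y0) + B t d2 * (g * y2 + x2 * y0) + B d1 d2 * (x1 * y2 + x2 * y1) := by
  have h1 := L.tri.one t L.tri.ha
  have h2 := L.tri.one d1 L.tri.hb
  have h3 := L.tri.one d2 L.tri.hc
  have h4 := L.tri.symm d1 t
  have h5 := L.tri.symm d2 t
  have h6 := L.tri.symm d2 d1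
  simp only [map_add, map_smul, LinearMap.add_apply, LinearMap.smul_apply, smul_eq_mul, h1, h2, h3, h4,
    h5, h6]
  ring

/-- coordinates of a positive root `v ≠ t` with `B t v ≤ 0` and `φ v = 0` -/
theorem Loc.crd_of (L : Loc Ψ B ρ φ t d1 d2 x x') {v : E} (hv : v ∈ Ψ) (hp : v ∈ C01 t d1 d2)
    (hvt : v ≠ t) (hB : B t v ≤ 0) (hφ : φ v = 0) :
    ∃ g x1 x2 : ℝ, v = g • t + x1 • d1 + x2 • d2 ∧
      Crd (-B t d1) (-B t d2) (-B d1 d2) (-φ d1) (-φ d2) g x1 x2 := by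
  obtain ⟨g, x1, x2, e, z0, z1, z2⟩ := hp
  have hp : v ∈ C01 t d1 d2 := ⟨g, x1, x2, e, z0, z1, z2⟩
  have hT := L.tri
  refine ⟨g, x1, x2, e, z0, z1, z2, ?_, ?_, ?_, ?_, ?_, ?_⟩
  · have h1 := hT.one v hv
    rw [e, L.val_B] at h1
    linarith
  · have h1 : B t (g • t + x1 • d1 + x2 • d2) = g + B t d1 * x1 + B t d2 * x2 := by
      have h2 := L.val_B 1 0 0 g x1 x2
      rw [one_smul, zero_smul, zero_smul, add_zero, add_zero] at h2
      rw [h2]
      ring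
    rw [e, h1] at hB
    linarith
  · obtain ⟨α, β, γ, e', k1, k2, k3⟩ := hT.rf_posW hv hp hvt
    have h1 : B t v = g + B t d1 * x1 + B t d2 * x2 := by
      have h2 := L.val_B 1 0 0 g x1 x2
      rw [one_smul, zero_smul, zero_smul, add_zero, add_zero] at h2
      rw [e, h2]
      ring
    have h3 : (2 * -B t d1 * x1 + 2 * -B t d2 * x2 - g) • t + x1 • d1 + x2 • d2 =
        α • t + β • d1 + γ • d2 := by
      rw [← e']
      unfold DY.rf
      rw [h1]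
      nth_rewrite 1 [e]
      module
    obtain ⟨h4, -, -⟩ := hT.coordW h3
    rw [h4]
    exact k1
  · by_cases hne : v = d1
    · left
      rw [hne] at e
      have h3 : (0 : ℝ) • t + (1 : ℝ) • d1 + (0 : ℝ) • d2 = g • t + x1 • d1 + x2 • d2 := by
        rw [← e]
        module
      obtain ⟨h4, h5, h6⟩ := hT.coordW h3
      exact ⟨h4.symm, h5.symm, h6.symm⟩
    · right
      have hT' : Tri Ψ B d1 t d2 := hT.swapW
      have hp' : v ∈ C01 d1 t d2 := by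
        rw [C01_swapW]
        exact hp
      obtain ⟨α, β, γ, e', k1, k2, k3⟩ := hT'.rf_posW hv hp' hne
      have h1 : B d1 v = x1 + B t d1 * g + B d1 d2 * x2 := by
        have h2 := L.val_B 0 1 0 g x1 x2
        rw [one_smul, zero_smul, zero_smul, zero_add, add_zero] at h2
        rw [e, h2]
        ring
      have h3 : (2 * -B t d1 * g + 2 * -B d1 d2 * x2 - x1) • d1 + g • t + x2 • d2 =
          α • d1 + β • t + γ • d2 := by
        rw [← e']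
        unfold DY.rf
        rw [h1]
        nth_rewrite 1 [e]
        module
      obtain ⟨h4, -, -⟩ := hT'.coordW h3
      rw [h4]
      exact k1
  · by_cases hne : v = d2
    · left
      rw [hne] at e
      have h3 : (0 : ℝ) • t + (0 : ℝ) • d1 + (1 : ℝ) • d2 = g • t + x1 • d1 + x2 • d2 := by
        rw [← e]
        module
      obtain ⟨h4, h5, h6⟩ := hT.coordW h3
      exact ⟨h4.symm, h5.symm, h6.symm⟩
    · right
      have hT' : Tri Ψ B d2 d1 t := hT.swapW'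
      have hp' : v ∈ C01 d2 d1 t := by
        rw [C01_swapW']
        exact hp
      obtain ⟨α, β, γ, e', k1, k2, k3⟩ := hT'.rf_posW hv hp' hne
      have h1 : B d2 v = x2 + B t d2 * g + B d1 d2 * x1 := by
        have h2 := L.val_B 0 0 1 g x1 x2
        rw [one_smul, zero_smul, zero_smul, zero_add, zero_add] at h2
        rw [e, h2]
        ring
      have h3 : (2 * -B t d2 * g + 2 * -B d1 d2 * x1 - x2) • d2 + x1 • d1 + g • t =
          α • d2 + β • d1 + γ • t := by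
        rw [← e']
        unfold DY.rf
        rw [h1]
        nth_rewrite 1 [e]
        module
      obtain ⟨h4, -, -⟩ := hT'.coordW h3
      rw [h4]
      exact k1
  · rw [e, L.val_φ] at hφ
    linarith

theorem Loc.ne_t (L : Loc Ψ B ρ φ t d1 d2 x x') : x ≠ t ∧ x' ≠ t := by
  constructor
  · rintro rfl
    have := L.fx
    rw [L.ft] at this
    norm_num at this
  · rintro rfl
    have := L.fx'
    rw [L.ft] at this
    norm_num at this

/-- coordinates of `x` and of `x'` -/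
theorem Loc.crd (L : Loc Ψ B ρ φ t d1 d2 x x') :
    ∃ g x1 x2 g' x1' x2' : ℝ, x = g • t + x1 • d1 + x2 • d2 ∧ x' = g' • t + x1' • d1 + x2' • d2 ∧
      Crd (-B t d1) (-B t d2) (-B d1 d2) (-φ d1) (-φ d2) g x1 x2 ∧
      Crd (-B t d1) (-B t d2) (-B d1 d2) (-φ d1) (-φ d2) g' x1' x2' ∧
      ρ x = g + x1 * ρ d1 + x2 * ρ d2 ∧ ρ x' = g' + x1' * ρ d1 + x2' * ρ d2 := by
  have hB := L.cxt.nonpos L.tri.sys L.xm L.tri.ha
  have hB' := L.cxt'.nonpos L.tri.sys L.xm' L.tri.ha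
  obtain ⟨g, x1, x2, e, h1⟩ := L.crd_of L.xm L.xp L.ne_t.1 hB L.fx
  obtain ⟨g', x1', x2', e', h1'⟩ := L.crd_of L.xm' L.xp' L.ne_t.2 hB' L.fx'
  refine ⟨g, x1, x2, g', x1', x2', e, e', h1, h1', ?_, ?_⟩
  · rw [e]
    exact L.val_ρ g x1 x2
  · rw [e']
    exact L.val_ρ g' x1' x2'

/-- the slopes of `x` and `x'` are different -/
theorem Loc.det_ne (L : Loc Ψ B ρ φ t d1 d2 x x') {g x1 x2 g' x1' x2' : ℝ}
    (e : x = g • t + x1 • d1 + x2 • d2) (e' : x' = g' • t + x1' • d1 + x2' • d2) :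
    x1 * x2' - x2 * x1' ≠ 0 := by
  intro h0
  have key : ∀ a b : ℝ, a * x1 = b * x1' → a * x2 = b * x2' → a = 0 ∧ b = 0 := by
    intro a b h1 h2
    have h3 : a • x + (-b) • x' + (-(a * g - b * g')) • t = 0 := by
      rw [e, e']
      have : a • (g • t + x1 • d1 + x2 • d2) + (-b) • (g' • t + x1' • d1 + x2' • d2) +
          (-(a * g - b * g')) • t = (a * x1 - b * x1') • d1 + (a * x2 - b * x2') • d2 := by module
      rw [this, h1, h2]
      module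
    obtain ⟨h4, h5, -⟩ := L.ind _ _ _ h3
    exact ⟨h4, by linarith⟩
  have h1 := key x1' x1 (by ring) (by linarith)
  have h2 := key x2' x2 (by linarith) (by ring)
  have hne : x = g • t := by
    rw [e, h1.2, h2.2]
    module
  have h3 := L.ind 1 0 (-g) (by rw [hne]; module)
  linarith [h3.1]

end DY
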