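import Pool.Agent.Helper98.BP.Roots

/-!
# Realizations exist (Soergel) (MP_d13a5e_al)

For a Coxeter system `(W,S)` of finite rank, `W` acts on `V* = ℝ^S ⊕ ℝ^S`; the action is faithful,
and an element `w` with `rank (w - 1) = 1` is a reflection of `W`.
-/

set_option autoImplicit false

namespace ExR

open BP Module

variable {B W : Type} [Group W] {M : CoxeterMatrix B}

open Classical in
/-- the doubled Coxeter matrix -/
noncomputable def dbl (M : CoxeterMatrix B) : CoxeterMatrix (B ⊕ B) where
  M := fun i j => match i, j with
    | Sum.inl s, Sum.inl t => M s t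
    | Sum.inl s, Sum.inr t => if s = t then 3 else 2
    | Sum.inr s, Sum.inl t => if s = t then 3 else 2
    | Sum.inr s, Sum.inr t => if s = t then 1 else 2
  isSymm := by
    ext i j
    rcases i with s | s <;> rcases j with t | t
    · exact M.symmetric t s
    · simp [Matrix.transpose_apply, eq_comm]
    · simp [Matrix.transpose_apply, eq_comm]
    · simp [Matrix.transpose_apply, eq_comm]
  diagonal := by
    intro i
    rcases i with s | s
    · exact M.diagonal s
    · simp
  off_diagonal := by
    intro i j hij
    rcases i with s | s <;> rcases j with t | t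
    · exact M.off_diagonal s t fun h => hij (by rw [h])
    · show (if s = t then 3 else 2) ≠ 1
      split_ifs <;> norm_num
    · show (if s = t then 3 else 2) ≠ 1
      split_ifs <;> norm_num
    · show (if s = t then 1 else 2) ≠ 1
      have : s ≠ t := fun h => hij (by rw [h])
      rw [if_neg this]
      norm_num

theorem dbl_ll (s t : B) : dbl M (Sum.inl s) (Sum.inl t) = M s t := rfl

open Classical in
theorem dbl_rl (s t : B) : dbl M (Sum.inr s) (Sum.inl t) = if s = t then 3 else 2 := rfl

/-- the space `V*` -/
abbrev VS (B : Type) := (B ⊕ B) →₀ ℝ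

theorem lift_dbl (M : CoxeterMatrix B) : M.IsLiftable
    (fun s => ((rf (dbl M) (Sum.inl s) : VS B ≃ₗ[ℝ] VS B) : Module.End ℝ (VS B))) := by
  intro s t
  exact liftable (dbl M) (Sum.inl s) (Sum.inl t)

variable (cs : CoxeterSystem M W)

/-- the representation on `V*` -/
noncomputable def sg : W →* Module.End ℝ (VS B) := cs.lift ⟨_, lift_dbl M⟩

/-- the simple roots and coroots -/
noncomputable def ar (s : B) : VS B := al (Sum.inl s)

noncomputable def ac (M : CoxeterMatrix B) (s : B) : VS B →ₗ[ℝ] ℝ := fc (dbl M) (Sum.inl s)

theorem sg_s (s : B) (v : VS B) : sg cs (cs.simple s) v = v - ac M s v • ar s := by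
  unfold sg
  rw [cs.lift_apply_simple]
  exact rf_apply (M := dbl M) (Sum.inl s) v

theorem sg_mul (w w' : W) (v : VS B) : sg cs (w * w') v = sg cs w (sg cs w' v) := by
  rw [map_mul]; rfl

theorem sg_one (v : VS B) : sg cs 1 v = v := by
  rw [map_one]; rfl

theorem ac_ar (s t : B) : ac M t (ar s) = -2 * Real.cos (Real.pi / (M s t : ℝ)) := by
  unfold ac ar
  rw [fc_al, dbl_ll]

theorem ac_self (s : B) : ac M s (ar s) = 2 := fc_self (M := dbl M) (Sum.inl s)

open Classical in
theorem ac_inr (s t : B) : ac M s (Finsupp.single (Sum.inr t) 1) = if t = s then -1 else 0 := by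
  have h : ac M s (Finsupp.single (Sum.inr t) 1) =
      -2 * Real.cos (Real.pi / (dbl M (Sum.inr t) (Sum.inl s) : ℝ)) :=
    fc_al (M := dbl M) (Sum.inr t) (Sum.inl s)
  rw [h, dbl_rl]
  split_ifs with h1
  · have : ((3 : ℕ) : ℝ) = 3 := by norm_num
    rw [this, Real.cos_pi_div_three]
    norm_num
  · have : ((2 : ℕ) : ℝ) = 2 := by norm_num
    rw [this, Real.cos_pi_div_two]
    norm_num

/-- the embedding of the geometric representation -/
noncomputable def jm : (B →₀ ℝ) →ₗ[ℝ] VS B := Finsupp.lmapDomain ℝ ℝ Sum.inl

theorem jm_al (s : B) : jm (al s) = ar s := by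
  unfold jm al ar al
  rw [Finsupp.lmapDomain_apply, Finsupp.mapDomain_single]

theorem jm_inj : Function.Injective (jm : (B →₀ ℝ) →ₗ[ℝ] VS B) :=
  Finsupp.mapDomain_injective Sum.inl_injective

theorem ac_jm (s : B) (v : B →₀ ℝ) : ac M s (jm v) = fc M s v := by
  induction v using Finsupp.induction_linear with
  | zero => simp
  | add x y hx hy => rw [map_add, map_add, map_add, hx, hy]
  | single t a =>
    have h : (Finsupp.single t a : B →₀ ℝ) = a • al t := by
      unfold al
      simp
    rw [h, map_smul, map_smul, map_smul, jm_al, ac_ar, fc_al]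

theorem sg_jm (w : W) : ∀ v, sg cs w (jm v) = jm (rho cs w v) := by
  induction w using cs.simple_induction_left with
  | one =>
    intro v
    rw [sg_one, rho_one]
  | mul_simple_left w t ih =>
    intro v
    rw [sg_mul, ih, sg_s, rho_mul, rho_s, ac_jm, map_sub, map_smul, jm_al]

theorem sg_ar (w : W) (s : B) : sg cs w (ar s) = jm (rho cs w (al s)) := by
  rw [← jm_al, sg_jm]

theorem sg_inj {w w' : W} (h : sg cs w = sg cs w') : w = w' := by
  apply rho_inj cs
  apply LinearMap.ext
  intro v
  apply jm_inj
  rw [← sg_jm, ← sg_jm, h]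

/-! ### The invariant form -/

/-- the rows of the form -/
noncomputable def gr (M : CoxeterMatrix B) : B ⊕ B → (VS B →ₗ[ℝ] ℝ)
  | Sum.inl s => ac M s
  | Sum.inr s => -Finsupp.lapply (Sum.inl s)

/-- the form -/
noncomputable def bb (M : CoxeterMatrix B) : VS B →ₗ[ℝ] (VS B →ₗ[ℝ] ℝ) :=
  Finsupp.linearCombination ℝ (gr M)

theorem bb_single (i : B ⊕ B) (a : ℝ) : bb M (Finsupp.single i a) = a • gr M i :=
  Finsupp.linearCombination_single ℝ a i

theorem bb_ar (s : B) (v : VS B) : bb M (ar s) v = ac M s v := by
  unfold ar al
  rw [bb_single, one_smul]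
  rfl

theorem bb_inr (s : B) (v : VS B) : bb M (Finsupp.single (Sum.inr s) 1) v = -v (Sum.inl s) := by
  rw [bb_single, one_smul]
  rfl

theorem bb_symm_single (i j : B ⊕ B) :
    bb M (Finsupp.single i 1) (Finsupp.single j 1) = bb M (Finsupp.single j 1) (Finsupp.single i 1) := by
  classical
  rcases i with s | s <;> rcases j with t | t
  · have h1 := bb_ar (M := M) s (ar t)
    have h2 := bb_ar (M := M) t (ar s)
    rw [ac_ar] at h1 h2
    rw [M.symmetric t s] at h1
    exact h1.trans h2.symm
  · rw [bb_inr]
    have h1 := bb_ar (M := M) s (Finsupp.single (Sum.inr t) 1)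
    rw [ac_inr] at h1
    refine h1.trans ?_
    rw [Finsupp.single_apply]
    by_cases h : t = s
    · rw [if_pos h, if_pos (by rw [h])]
    · rw [if_neg h, if_neg (fun h2 => h (Sum.inl_injective h2).symm), neg_zero]
  · rw [bb_inr]
    have h1 := bb_ar (M := M) t (Finsupp.single (Sum.inr s) 1)
    rw [ac_inr] at h1
    refine Eq.trans ?_ h1.symm
    rw [Finsupp.single_apply]
    by_cases h : s = t
    · rw [if_pos h, if_pos (by rw [h])]
    · rw [if_neg h, if_neg (fun h2 => h (Sum.inl_injective h2).symm), neg_zero]
  · rw [bb_inr, bb_inr, Finsupp.single_apply, Finsupp.single_apply, if_neg (by simp), if_neg (by simp)]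

theorem bb_symm (v w : VS B) : bb M v w = bb M w v := by
  induction v using Finsupp.induction_linear with
  | zero => simp
  | add x y hx hy => rw [map_add, LinearMap.add_apply, hx, hy, map_add]
  | single i a =>
    induction w using Finsupp.induction_linear with
    | zero => simp
    | add x y hx hy => rw [map_add, hx, hy, map_add, LinearMap.add_apply]
    | single j b =>
      have h1 : (Finsupp.single i a : VS B) = a • Finsupp.single i 1 := by simp
      have h2 : (Finsupp.single j b : VS B) = b • Finsupp.single j 1 := by simp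
      rw [h1, h2, map_smul, map_smul, map_smul, map_smul, LinearMap.smul_apply, LinearMap.smul_apply,
        bb_symm_single, smul_eq_mul, smul_eq_mul, smul_eq_mul, smul_eq_mul]
      ring

theorem bb_nondeg {a : VS B} (h : ∀ v, bb M a v = 0) : a = 0 := by
  classical
  have h1 : ∀ s, a (Sum.inl s) = 0 := by
    intro s
    have := h (Finsupp.single (Sum.inr s) 1)
    rw [bb_symm, bb_inr] at this
    linarith
  ext i
  rcases i with s | s
  · exact h1 s
  have h2 : ac M s a = 0 := by
    have := h (ar s)
    rwa [bb_symm, bb_ar] at this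
  have h3 : ∀ v : VS B, (∀ t, v (Sum.inl t) = 0) → ac M s v = -v (Sum.inr s) := by
    intro v hv
    have e : v = v.sum fun i x => Finsupp.single i x := (Finsupp.sum_single v).symm
    have h4 : ac M s v = v.sum fun i x => ac M s (Finsupp.single i x) := by
      conv_lhs => rw [e]
      rw [map_finsuppSum]
    rw [h4]
    have h5 : v (Sum.inr s) = v.sum fun i x => if i = Sum.inr s then x else 0 := by
      rw [Finsupp.sum_ite_eq']
      split_ifs with h6
      · rfl
      · exact Finsupp.notMem_support_iff.1 h6
    rw [h5, Finsupp.sum, Finsupp.sum, ← Finset.sum_neg_distrib]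
    apply Finset.sum_congr rfl
    intro i _
    rcases i with t | t
    · rw [hv t]
      simp
    · have h6 : (Finsupp.single (Sum.inr t) (v (Sum.inr t)) : VS B) =
          v (Sum.inr t) • Finsupp.single (Sum.inr t) 1 := by simp
      rw [h6, map_smul, ac_inr]
      by_cases h7 : t = s
      · rw [if_pos h7, if_pos (by rw [h7])]
        simp
      · rw [if_neg h7, if_neg (fun h8 => h7 (Sum.inr_injective h8))]
        simp
  have h4 := h3 a h1
  rw [h2] at h4
  show a (Sum.inr s) = 0
  linarith

theorem bb_sg (w : W) : ∀ v v', bb M (sg cs w v) (sg cs w v') = bb M v v' := by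
  induction w using cs.simple_induction_left with
  | one =>
    intro v v'
    rw [sg_one, sg_one]
  | mul_simple_left w t ih =>
    intro v v'
    rw [sg_mul, sg_mul]
    rw [← ih v v']
    generalize sg cs w v = x
    generalize sg cs w v' = y
    rw [sg_s, sg_s]
    simp only [map_sub, map_smul, LinearMap.sub_apply, LinearMap.smul_apply, smul_eq_mul, bb_ar]
    rw [bb_symm x (ar t), bb_ar, ac_self]
    ring

/-! ### Elements with `rank (w - 1) = 1` -/

/-- `w - 1` has rank one -/
def R1 (w : W) : Prop := ∃ a : VS B, a ≠ 0 ∧ (∀ v, ∃ c : ℝ, sg cs w v = v + c • a) ∧ ∃ v, sg cs w v ≠ v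

theorem R1.refl {w : W} (h : R1 cs w) : w * w = 1 ∧
    ∃ a : VS B, ∀ v, sg cs w v = -v → ∃ c : ℝ, v = c • a := by
  obtain ⟨a, ha, hc, v0, hv0⟩ := h
  choose c hc using hc
  have hc0 : c v0 ≠ 0 := by
    intro h
    apply hv0
    rw [hc, h, zero_smul, add_zero]
  have key : ∀ v v', c v * c v' * bb M a a + c v * bb M a v' + c v' * bb M a v = 0 := by
    intro v v'
    have h1 := bb_sg cs w v v'
    rw [hc, hc] at h1
    simp only [map_add, map_smul, LinearMap.add_apply, LinearMap.smul_apply, smul_eq_mul] at h1
    rw [bb_symm v a] at h1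
    linarith
  have h00 := key v0 v0
  have h1 : bb M a v0 = -(c v0 * bb M a a / 2) := by
    have : c v0 * (c v0 * bb M a a + 2 * bb M a v0) = 0 := by linarith
    rcases mul_eq_zero.1 this with h | h
    · exact absurd h hc0
    · linarith
  have h2 : ∀ v, bb M a v = -(c v * bb M a a / 2) := by
    intro v
    have h3 := key v0 v
    rw [h1] at h3
    have : c v0 * (bb M a v + c v * bb M a a / 2) = 0 := by linarith
    rcases mul_eq_zero.1 this with h | h
    · exact absurd h hc0
    · linarith
  have haa : bb M a a ≠ 0 := by
    intro h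
    apply ha
    apply bb_nondeg
    intro v
    rw [h2, h]
    ring
  have hca : c a = -2 := by
    have h3 := h2 a
    have : bb M a a * (c a + 2) = 0 := by linarith
    rcases mul_eq_zero.1 this with h | h
    · exact absurd h haa
    · linarith
  refine ⟨?_, a, fun v hv => ⟨-(c v / 2), ?_⟩⟩
  · apply sg_inj cs
    apply LinearMap.ext
    intro v
    rw [sg_mul, sg_one, hc v, map_add, map_smul, hc v, hc a, hca]
    module
  · rw [hc] at hv
    have h3 : (2 : ℝ) • v = (-c v) • a := by
      rw [neg_smul, two_smul]
      have : v + c v • a + v - c v • a = -v + v - c v • a := by rw [hv]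
      calc v + v = v + c v • a + v - c v • a := by abel
        _ = -v + v - c v • a := this
        _ = -(c v • a) := by abel
    calc v = (1 / 2 : ℝ) • ((2 : ℝ) • v) := by module
      _ = -(c v / 2) • a := by rw [h3]; module

theorem R1.conj {w : W} (h : R1 cs w) (y : W) : R1 cs (y * w * y⁻¹) := by
  obtain ⟨a, ha, hc, v0, hv0⟩ := h
  have hy : ∀ v, sg cs y (sg cs y⁻¹ v) = v := by
    intro v
    rw [← sg_mul, mul_inv_cancel, sg_one]
  have hy' : ∀ v, sg cs y⁻¹ (sg cs y v) = v := by
    intro v
    rw [← sg_mul, inv_mul_cancel, sg_one]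
  refine ⟨sg cs y a, ?_, ?_, sg cs y v0, ?_⟩
  · intro h
    apply ha
    rw [← hy' a, h, map_zero]
  · intro v
    obtain ⟨c, hc⟩ := hc (sg cs y⁻¹ v)
    refine ⟨c, ?_⟩
    rw [sg_mul, sg_mul, hc, map_add, map_smul, hy]
  · intro h
    rw [sg_mul, sg_mul, hy'] at h
    apply hv0
    have := congrArg (sg cs y⁻¹) h
    rwa [hy', hy'] at this

/-- **an element with `rank (w - 1) = 1` is a reflection** -/
theorem R1.isReflection : ∀ (n : ℕ) (w : W), cs.length w ≤ n → R1 cs w → cs.IsReflection w := by
  intro n
  induction n with
  | zero =>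
    intro w hw h
    exfalso
    have h1 : w = 1 := cs.length_eq_zero_iff.1 (by omega)
    obtain ⟨-, -, -, v, hv⟩ := h
    rw [h1, sg_one] at hv
    exact hv rfl
  | succ n ih =>
    intro w hw h
    obtain ⟨hww, a, ha⟩ := h.refl
    have hwi : w⁻¹ = w := inv_eq_of_mul_eq_one_left hww
    by_cases hD : ∃ s, cs.IsRightDescent w s ∧ rho cs w (al s) ≠ -al s
    · obtain ⟨s, hs, hne⟩ := hD
      -- `s w s` is shorter
      have h1 : Pos (-rho cs w (al s)) := neg_of_lt cs w s hs
      have h2 : Pos (rho cs (w * cs.simple s) (al s)) := by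
        rw [rho_simple_self']
        exact h1
      have h3 : Pos (rho cs (cs.simple s) (rho cs (w * cs.simple s) (al s))) := by
        apply simple_pos cs h2 s
        rw [rho_simple_self']
        intro h4
        apply hne
        have := congrArg Neg.neg h4
        rwa [neg_neg] at this
      rw [← rho_mul, ← mul_assoc, rho_simple_self'] at h3
      -- `ℓ(s w s) < ℓ(s w)`?
      have h5 : cs.length (cs.simple s * w * cs.simple s) < cs.length (cs.simple s * w) := by
        by_contra h6
        have h7 := cs.length_mul_simple_ne (cs.simple s * w) s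
        have h8 := pos_of_lt cs (cs.simple s * w) s (by omega)
        exact not_pos_neg (rho_al_ne cs _ s) h8 h3
      have h6 : cs.length (cs.simple s * w) < cs.length w := by
        have e : cs.length (cs.simple s * w) = cs.length (w * cs.simple s) := by
          rw [← cs.length_inv (w * cs.simple s), mul_inv_rev, cs.inv_simple, hwi]
        rw [e]
        exact hs
      have h9 := ih (cs.simple s * w * cs.simple s) (by omega) (by
        have := h.conj cs (cs.simple s)
        rwa [cs.inv_simple] at this)
      have h10 := h9.conj (cs.simple s)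
      have e : cs.simple s * (cs.simple s * w * cs.simple s) * (cs.simple s)⁻¹ = w := by
        rw [cs.inv_simple, ← mul_assoc, ← mul_assoc, cs.simple_mul_simple_self, one_mul,
          cs.simple_mul_simple_cancel_right]
      rwa [e] at h10
    · rw [not_exists] at hD
      have hD' : ∀ s, cs.IsRightDescent w s → rho cs w (al s) = -al s := by
        intro s hs
        by_contra hne
        exact hD s ⟨hs, hne⟩
      have hw1 : w ≠ 1 := by
        intro h1
        obtain ⟨-, -, -, v, hv⟩ := h
        rw [h1, sg_one] at hv
        exact hv rfl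
      obtain ⟨s, hs⟩ := cs.exists_rightDescent_of_ne_one hw1
      have hcm : w * cs.simple s * w⁻¹ = cs.simple s := by
        have := refl_unique cs (w := w) (w' := 1) (s := s) (s' := s) (c := -1) (by
          rw [hD' s hs, rho_one, neg_one_smul])
        rwa [one_mul, inv_one, mul_one] at this
      have hcm' : w * cs.simple s = cs.simple s * w := by
        calc w * cs.simple s = w * cs.simple s * w⁻¹ * w := by group
          _ = cs.simple s * w := by rw [hcm]
      by_cases h1 : w * cs.simple s = 1
      · have : w = cs.simple s := by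
          calc w = w * cs.simple s * cs.simple s := (cs.simple_mul_simple_cancel_right s).symm
            _ = cs.simple s := by rw [h1, one_mul]
        rw [this]
        exact cs.isReflection_simple s
      exfalso
      obtain ⟨t, ht⟩ := cs.exists_rightDescent_of_ne_one h1
      have hl : cs.length (w * cs.simple s) + 1 = cs.length w := cs.isRightDescent_iff.1 hs
      have hl' : cs.length (w * cs.simple s * cs.simple t) + 1 = cs.length (w * cs.simple s) :=
        cs.isRightDescent_iff.1 ht
      have hts : t ≠ s := by
        rintro rfl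
        rw [cs.simple_mul_simple_cancel_right] at hl'
        omega
      have hwt : cs.IsRightDescent w t := by
        have e : w * cs.simple t = cs.simple s * (w * cs.simple s * cs.simple t) := by
          rw [hcm']
          rw [← mul_assoc, ← mul_assoc, cs.simple_mul_simple_self, one_mul]
        show cs.length (w * cs.simple t) < cs.length w
        rw [e]
        have := cs.length_mul_le (cs.simple s) (w * cs.simple s * cs.simple t)
        rw [cs.length_simple] at this
        omega
      have e1 := ha (ar s) (by rw [sg_ar, hD' s hs, map_neg, jm_al])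
      have e2 := ha (ar t) (by rw [sg_ar, hD' t hwt, map_neg, jm_al])
      obtain ⟨c1, hc1⟩ := e1
      obtain ⟨c2, hc2⟩ := e2
      have hcc1 : c1 ≠ 0 := by
        rintro rfl
        rw [zero_smul] at hc1
        exact al_ne (Sum.inl s) hc1
      have e3 : ar t = (c2 / c1) • ar s := by
        rw [hc2, hc1, smul_smul]
        congr 1
        field_simp
      have e4 := congrArg (fun v : VS B => v (Sum.inl t)) e3
      classical
      have e5 : (ar t : VS B) (Sum.inl t) = 1 := by
        unfold ar al
        rw [Finsupp.single_apply, if_pos rfl]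
      have e6 : (ar s : VS B) (Sum.inl t) = 0 := by
        unfold ar al
        rw [Finsupp.single_apply, if_neg (fun h => hts (Sum.inl_injective h).symm)]
      simp only [Finsupp.smul_apply] at e4
      rw [e5, e6, smul_zero] at e4
      exact one_ne_zero e4

/-! ### The realization -/

/-- **every Coxeter system of finite rank has a realization** (Soergel) -/
theorem exists_rlz [Finite B] : Nonempty (RC.Rlz cs) := by
  classical
  have := Fintype.ofFinite B
  let n : ℕ := Fintype.card (B ⊕ B)
  let e : (B ⊕ B) ≃ Fin n := Fintype.equivFin _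
  let L : VS B ≃ₗ[ℝ] (Fin n → ℝ) := (Finsupp.domLCongr e).trans (Finsupp.linearEquivFunOnFinite ℝ ℝ _)
  have hL : ∀ v i, L v i = v (e.symm i) := by
    intro v i
    show (Finsupp.domLCongr (R := ℝ) e v) i = _
    rw [Finsupp.domLCongr_apply, Finsupp.domCongr_apply, Finsupp.equivMapDomain_apply]
  let αc : B → Fin n → ℝ := fun s i => ac M s (L.symm fun j => if i = j then 1 else 0)
  have hac : ∀ s v, ∑ i, v i * αc s i = ac M s (L.symm v) := by
    intro s v
    have h := LinearMap.pi_apply_eq_sum_univ ((ac M s).comp L.symm.toLinearMap) v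
    simp only [LinearMap.comp_apply, LinearEquiv.coe_coe, smul_eq_mul] at h
    exact h.symm
  have hacL : ∀ s v, ∑ i, L v i * αc s i = ac M s v := by
    intro s v
    rw [hac, L.symm_apply_apply]
  let ρ : W →* Module.End ℝ (Fin n → ℝ) :=
    { toFun := fun w => L.toLinearMap ∘ₗ sg cs w ∘ₗ L.symm.toLinearMap
      map_one' := by
        apply LinearMap.ext
        intro v
        show L (sg cs 1 (L.symm v)) = v
        rw [sg_one, L.apply_symm_apply]
      map_mul' := by
        intro x y
        apply LinearMap.ext
        intro v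
        show L (sg cs (x * y) (L.symm v)) = L (sg cs x (L.symm (L (sg cs y (L.symm v)))))
        rw [sg_mul, L.symm_apply_apply] }
  have hρ : ∀ w v, ρ w (L v) = L (sg cs w v) := by
    intro w v
    show L (sg cs w (L.symm (L v))) = _
    rw [L.symm_apply_apply]
  have hρ' : ∀ w v, ρ w v = L (sg cs w (L.symm v)) := fun w v => rfl
  refine ⟨{ n := n, α := fun s => L (ar s), αc := αc, li := ?_, lic := ?_, pair := ?_, ρ := ρ,
            ρs := ?_, inj := ?_, refl := ?_ }⟩
  · have h1 : LinearIndependent ℝ (fun s : B => (ar s : VS B)) := by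
      rw [Fintype.linearIndependent_iff]
      intro g hg s
      have h2 := congrArg (fun v : VS B => v (Sum.inl s)) hg
      simp only [Finsupp.finsetSum_apply, Finsupp.smul_apply, Finsupp.zero_apply] at h2
      rw [Finset.sum_eq_single s] at h2
      · have h3 : (ar s : VS B) (Sum.inl s) = 1 := by
          unfold ar al
          rw [Finsupp.single_apply, if_pos rfl]
        rwa [h3, smul_eq_mul, mul_one] at h2
      · intro t _ hts
        have h3 : (ar t : VS B) (Sum.inl s) = 0 := by
          unfold ar al
          rw [Finsupp.single_apply, if_neg (fun h => hts (Sum.inl_injective h))]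
        rw [h3, smul_zero]
      · intro h
        exact absurd (Finset.mem_univ s) h
    exact h1.map' L.toLinearMap L.ker
  · rw [Fintype.linearIndependent_iff]
    intro g hg t
    have h1 : ∀ s, αc s (e (Sum.inr t)) = ac M s (Finsupp.single (Sum.inr t) 1) := by
      intro s
      show ac M s (L.symm fun j => if e (Sum.inr t) = j then 1 else 0) = _
      congr 1
      rw [LinearEquiv.symm_apply_eq]
      ext j
      rw [hL, Finsupp.single_apply]
      by_cases h : e (Sum.inr t) = j
      · rw [if_pos h, if_pos (by rw [← h, e.symm_apply_apply])]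
      · rw [if_neg h, if_neg (fun h2 => h (by rw [h2, e.apply_symm_apply]))]
    have h2 := congrArg (fun v : Fin n → ℝ => v (e (Sum.inr t))) hg
    simp only [Finset.sum_apply, Pi.smul_apply, Pi.zero_apply] at h2
    rw [Finset.sum_eq_single t] at h2
    · rw [h1, ac_inr, if_pos rfl, smul_eq_mul] at h2
      linarith
    · intro s _ hst
      rw [h1, ac_inr, if_neg (Ne.symm hst), smul_zero]
    · intro h
      exact absurd (Finset.mem_univ t) h
  · intro s t
    rw [hacL, ac_ar]
  · intro s v
    rw [hρ', sg_s, map_sub, map_smul, L.apply_symm_apply, hac]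
  · intro w w' h
    apply sg_inj cs
    apply LinearMap.ext
    intro v
    apply L.injective
    rw [← hρ, ← hρ, h]
  · intro w h
    obtain ⟨⟨a, ha⟩, ha0, hc⟩ := finrank_eq_one_iff'.1 h
    apply R1.isReflection cs (cs.length w) w le_rfl
    refine ⟨L.symm a, ?_, ?_, ?_⟩
    · intro h0
      apply ha0
      rw [LinearEquiv.map_eq_zero_iff] at h0
      exact Subtype.ext h0
    · intro v
      obtain ⟨c, hc⟩ := hc ⟨(ρ w - 1) (L v), LinearMap.mem_range_self _ _⟩
      refine ⟨c, ?_⟩
      have h1 : c • a = ρ w (L v) - L v := congrArg Subtype.val hc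
      apply L.injective
      rw [map_add, map_smul, L.apply_symm_apply, h1, ← hρ]
      abel
    · by_contra hcon
      rw [not_exists] at hcon
      obtain ⟨v, hv⟩ := ha
      have h1 : sg cs w (L.symm v) = L.symm v := by
        by_contra h2
        exact hcon _ h2
      apply ha0
      apply Subtype.ext
      show a = 0
      rw [← hv, LinearMap.sub_apply, hρ', h1, L.apply_symm_apply]
      simp

end ExR
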