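import Pool.Agent.Helper7.DY.Case3
import Pool.Agent.Helper9.DY.Str
import Pool.Agent.Helper9.DY.CaseII
import Pool.Agent.Helper62.DY.CaseI
import Pool.Agent.Helper64.DY.OF
import Pool.Agent.Helper70.DY.Final

/-!
# The statement about triangles from the blocks of case II (MP_d13a5e_al)

Everything except the six statements `E0Stat`, `NGStat`, `NG0Stat`, `GAP1`, `GAP2`, `GAP4` of
`Helper9/DY/CaseII.lean` is proved; here `StarS` and the full answer are deduced from them.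
-/

set_option autoImplicit false

open MvPolynomial

namespace DY

open Set
open RC (BEq Rlz)
open RC.Rlz (ReflOrder InitSec mik Biclosed)
open _root_.RS

/-- the blocks of case II -/
structure Blocks {E : Type*} [AddCommGroup E] [Module ℝ E] (Ψ : Set E) (B : E →ₗ[ℝ] E →ₗ[ℝ] ℝ) : Prop where
  e0 : E0Stat Ψ B
  ng : NGStat Ψ B
  ng0 : NG0Stat Ψ B
  gap1 : GAP1 Ψ B
  gap2 : GAP2 Ψ B
  gap4 : GAP4 Ψ B

theorem starS_of_blocks {E : Type*} [AddCommGroup E] [Module ℝ E] {Ψ : Set E} {B : E →ₗ[ℝ] E →ₗ[ℝ] ℝ}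
    {a b c : E} (hT : Tri Ψ B a b c) (h : Blocks Ψ B) : StarS Ψ a b c :=
  starS_of_loc hT
    (fun _ _ _ _ _ _ _ hT' hA rt ft sp f1 f2 hk => str_of hT' hA rt ft sp f1 f2 hk)
    (not_loc (fun _ _ _ _ _ _ _ L h1 h2 => Pool.Agent.Helper62.DY.caseI L h1 h2)
      (caseII_of h.e0 (of_stat Ψ B) h.ng h.ng0 h.gap1 h.gap2 h.gap4))

/-- the full answer from the blocks of case II -/
theorem full_of_blocks {B W : Type} [Finite B] [Group W] {M : CoxeterMatrix B}
    (cs : CoxeterSystem M W) (V : Rlz cs) (h : ∀ Ψ : Set (B →₀ ℝ), Blocks Ψ (Bf V)) :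
    ∃ Bz : W → Raw V.n, (∀ w, IsB V w (Bz w)) ∧
      ∀ A, Biclosed V A → ∀ l, cs.IsReduced l → ∀ u, BEq M u (mik V A l) →
        (∃ X, IsCx X ∧ HE X (Rou V u) ∧ Minimal X) ∧
        ∀ X, IsCx X → HE X (Rou V u) → Minimal X → Linear cs Bz (cs.wordProd l) X :=
  full_of_star cs V fun Ψ _ _ _ hT => starS_of_blocks hT (h Ψ)

end DY
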