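import Pool.Agent.Helper7.DY.Fin
import Pool.Agent.Helper7.DY.Gap2
import Pool.Agent.Helper7.DY.AffD
import Pool.Agent.Helper8.DY.G4Bh
import Pool.Agent.Helper9.DY.G2bAll
import Pool.Agent.Helper32.DY.Gap1a
import Pool.Agent.Helper40.DY.NGi0Fin
import Pool.Agent.Helper62.DY.G2w3
import Pool.Agent.Helper62.DY.NG0
import Pool.Agent.Helper64.DY.G2a
import Pool.Agent.Helper78.DY.G2d
import Pool.Agent.Helper80.DY.E0H

/-!
# All blocks together: every biclosed set is an initial section of a reflection order, and the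
Rouquier complexes of all Mikado braids are linear (MP_d13a5e_al)
-/

set_option autoImplicit false

namespace DY

open Set
open RC (BEq Rlz)
open RC.Rlz (mik Biclosed)
open _root_.RS

/-- all blocks -/
theorem blocks {E : Type*} [AddCommGroup E] [Module ℝ E] (Ψ : Set E) (B : E →ₗ[ℝ] E →ₗ[ℝ] ℝ) :
    Blocks Ψ B where
  e0 := Pool.Agent.Helper80.DY.e0_stat Ψ B
  ng := Pool.Agent.Helper40.DY.ngStat Ψ B
  ng0 := Pool.Agent.Helper62.DY.ng0
  gap1 := gap1_all Ψ B
  gap2 := gap2_of Pool.Agent.Helper64.DY.g2a (g2b Ψ B) Pool.Agent.Helper62.DY.g2c (g2d Ψ B) (g2e Ψ B)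
  gap4 := gap4 Ψ B

/-- the statement about triangles -/
theorem starS_all {E : Type*} [AddCommGroup E] [Module ℝ E] {Ψ : Set E} {B : E →ₗ[ℝ] E →ₗ[ℝ] ℝ}
    {a b c : E} (hT : Tri Ψ B a b c) : StarS Ψ a b c :=
  starS_of_blocks hT (blocks Ψ B)

/-- the full answer -/
theorem full_all {B W : Type} [Finite B] [Group W] {M : CoxeterMatrix B}
    (cs : CoxeterSystem M W) (V : Rlz cs) :
    ∃ Bz : W → Raw V.n, (∀ w, IsB V w (Bz w)) ∧
      ∀ A, Biclosed V A → ∀ l, cs.IsReduced l → ∀ u, BEq M u (mik V A l) →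
        (∃ X, IsCx X ∧ HE X (Rou V u) ∧ Minimal X) ∧
        ∀ X, IsCx X → HE X (Rou V u) → Minimal X → Linear cs Bz (cs.wordProd l) X :=
  full_of_blocks cs V fun Ψ => blocks Ψ (Bf V)

end DY
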