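import Pool.Agent.Helper7.DY.Loc

/-!
# Reduction of `StarS` to the chamber of the foot (MP_d13a5e_al)
-/

namespace DY

open Set

variable {E : Type*} [AddCommGroup E] [Module ℝ E]
variable {Ψ : Set E} {B : E →ₗ[ℝ] E →ₗ[ℝ] ℝ}

/-- conjugation of a simple system by any reflection -/
theorem Tri.conj {a b c : E} (h : Tri Ψ B a b c) {s : E} (hs : s ∈ Ψ) :
    Tri Ψ B (DY.rf B s a) (DY.rf B s b) (DY.rf B s c) := by
  have h1 : B s s = 1 := h.one s hs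
  have hcomb : ∀ α β γ : ℝ, DY.rf B s (α • a + β • b + γ • c) =
      α • DY.rf B s a + β • DY.rf B s b + γ • DY.rf B s c := by
    intro α β γ
    rw [rfW_add, rfW_add, rfW_smul, rfW_smul, rfW_smul]
  have hmem : ∀ u : E, u ∈ C01 (DY.rf B s a) (DY.rf B s b) (DY.rf B s c) ↔ DY.rf B s u ∈ C01 a b c := by
    intro u
    constructor
    · rintro ⟨α, β, γ, h2, g1, g2, g3⟩
      refine ⟨α, β, γ, ?_, g1, g2, g3⟩
      rw [h2, ← hcomb, rfW_rf h1]
    · rintro ⟨α, β, γ, h2, g1, g2, g3⟩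
      refine ⟨α, β, γ, ?_, g1, g2, g3⟩
      rw [← hcomb, ← h2, rfW_rf h1]
  refine ⟨h.symm, h.one, h.neg, h.refl, h.refl s hs a h.ha, h.refl s hs b h.hb, h.refl s hs c h.hc,
    ?_, ?_, ?_, ?_⟩
  · intro α β γ h0
    rw [← hcomb] at h0
    apply h.indep
    rw [← rfW_rf h1 (α • a + β • b + γ • c), h0]
    unfold DY.rf
    simp
  · intro u hu
    rw [hmem, hmem, rfW_neg]
    exact h.pos _ (h.refl s hs u hu)
  · intro r
    refine ((h.fin r).image (DY.rf B s)).subset ?_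
    rintro u ⟨hu, α, β, γ, h2, g1, g2, g3, g4⟩
    refine ⟨DY.rf B s u, ⟨h.refl s hs u hu, α, β, γ, ?_, g1, g2, g3, g4⟩, rfW_rf h1 u⟩
    rw [h2, ← hcomb, rfW_rf h1]
  · intro u hu
    refine ((h.inv (DY.rf B s u) (h.refl s hs u hu)).image (DY.rf B s)).subset ?_
    rintro v ⟨hv, g1, g2⟩
    rw [hmem] at g1 g2
    refine ⟨DY.rf B s v, ⟨h.refl s hs v hv, g1, ?_⟩, rfW_rf h1 v⟩
    rw [← rfW_conj h.symm h1, ← rfW_neg]
    exact g2

theorem Adm.conj {a b c : E} {ρ : E →ₗ[ℝ] ℝ} (h : Tri Ψ B a b c) (hA : Adm Ψ a b c ρ) {s : E}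
    (hs : s ∈ Ψ) : Adm Ψ (DY.rf B s a) (DY.rf B s b) (DY.rf B s c) ρ := by
  have h1 : B s s = 1 := h.one s hs
  refine hA.change h (h.conj hs) ((h.inv s hs).subset ?_)
  rintro u ⟨hu, hp, hn⟩
  refine ⟨hu, hp, ?_⟩
  rcases h.pos _ (h.refl s hs u hu) with h2 | h2
  · exfalso
    apply hn
    obtain ⟨α, β, γ, h3, g1, g2, g3⟩ := h2
    refine ⟨α, β, γ, ?_, g1, g2, g3⟩
    rw [← rfW_smul, ← rfW_smul, ← rfW_smul, ← rfW_add, ← rfW_add, ← h3, rfW_rf h1]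
  · exact h2

/-- a canonical pair is obtuse -/
theorem Canon.nonpos {x t : E} (hS : Sys Ψ B) (h : Canon Ψ x t) (hx : x ∈ Ψ) (ht : t ∈ Ψ) :
    B t x ≤ 0 := by
  have h1 := h _ (hS.refl t ht x hx) 1 (-(2 * B t x)) (by
    unfold DY.rf
    module)
  rcases h1 with (⟨h2, -⟩ | ⟨-, h2⟩ | ⟨-, h2⟩) | (⟨h2, -⟩ | ⟨h2, -⟩ | ⟨h2, -⟩)
  · norm_num at h2
  · linarith
  · linarith
  · norm_num at h2
  · norm_num at h2
  · linarith

private theorem z1_nonneg {α : ℝ} (h : Z1 α) : 0 ≤ α := by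
  rcases h with h | h <;> linarith

/-- signs in the chamber of the foot -/
theorem sign_foot {t d1 d2 x : E} {ρ : E →ₗ[ℝ] ℝ} (hT : Tri Ψ B t d1 d2) (rt : ρ t = 1)
    (f1 : B t d1 ≤ ρ d1) (f2 : B t d2 ≤ ρ d2) (hx : x ∈ Ψ) (rx : 0 ≤ ρ x) (hB : B t x ≤ 0) :
    x ∈ C01 t d1 d2 ∨ (-x ∈ C01 t d1 d2 ∧ ρ x = 0 ∧ B t x = 0) := by
  rcases hT.pos x hx with h | h
  · exact Or.inl h
  · refine Or.inr ⟨h, ?_⟩
    obtain ⟨α, β, γ, e, g1, g2, g3⟩ := h
    have e1 : -(ρ x) = α + β * ρ d1 + γ * ρ d2 := by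
      rw [← map_neg, e, map_add, map_add, map_smul, map_smul, map_smul, rt]
      simp only [smul_eq_mul]
      ring
    have e2 : -(B t x) = α + β * B t d1 + γ * B t d2 := by
      rw [← map_neg, e, map_add, map_add, map_smul, map_smul, map_smul, hT.one t hT.ha]
      simp only [smul_eq_mul]
      ring
    have h1 := mul_nonneg (z1_nonneg g2) (sub_nonneg.mpr f1)
    have h2 := mul_nonneg (z1_nonneg g3) (sub_nonneg.mpr f2)
    constructor
    · nlinarith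
    · nlinarith

/-- the foot chamber in which both `x` and `x'` are positive -/
theorem exists_foot2 {a b c t x x' : E} {ρ : E →ₗ[ℝ] ℝ} (hT : Tri Ψ B a b c) (hA : Adm Ψ a b c ρ)
    (ht : t ∈ Ψ) (hx : x ∈ Ψ) (hx' : x' ∈ Ψ) (rt : ρ t = 1) (rx : 0 ≤ ρ x) (rx' : 0 ≤ ρ x')
    (hpos : 0 < ρ x + ρ x') (hB : B t x ≤ 0) (hB' : B t x' ≤ 0) :
    ∃ d1 d2, Tri Ψ B t d1 d2 ∧ Adm Ψ t d1 d2 ρ ∧ B t d1 ≤ ρ d1 ∧ B t d2 ≤ ρ d2 ∧
      x ∈ C01 t d1 d2 ∧ x' ∈ C01 t d1 d2 := by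
  obtain ⟨d1, d2, k1, k2, k3, k4, -⟩ := exists_foot hT hA ht
  rw [rt, one_mul] at k3 k4
  -- flip by a root perpendicular to `t` through the centre
  have flip : ∀ y ∈ Ψ, -y ∈ C01 t d1 d2 → ρ y = 0 → B t y = 0 →
      ∃ e1 e2, Tri Ψ B t e1 e2 ∧ Adm Ψ t e1 e2 ρ ∧ B t e1 ≤ ρ e1 ∧ B t e2 ≤ ρ e2 ∧
        y ∈ C01 t e1 e2 := by
    intro y hy hny ry hBy
    have h1 : B y y = 1 := hT.one y hy
    have hyt : B y t = 0 := by rw [hT.symm, hBy]
    have et : DY.rf B y t = t := by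
      unfold DY.rf
      rw [hyt]
      simp
    have l1 := k1.conj hy
    have l2 := k2.conj k1 hy
    rw [et] at l1 l2
    have hv : ∀ u, ρ (DY.rf B y u) = ρ u := by
      intro u
      unfold DY.rf
      rw [map_sub, map_smul, ry, smul_zero, sub_zero]
    have hw : ∀ u, B t (DY.rf B y u) = B t u := by
      intro u
      unfold DY.rf
      rw [map_sub, map_smul, hBy, smul_zero, sub_zero]
    refine ⟨DY.rf B y d1, DY.rf B y d2, l1, l2, ?_, ?_, ?_⟩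
    · rw [hv, hw]
      exact k3
    · rw [hv, hw]
      exact k4
    · obtain ⟨α, β, γ, e, g1, g2, g3⟩ := hny
      refine ⟨α, β, γ, ?_, g1, g2, g3⟩
      have e2 : DY.rf B y (-y) = y := by
        rw [rfW_neg, rfW_self h1, neg_neg]
      have e3 : DY.rf B y (-y) = α • t + β • DY.rf B y d1 + γ • DY.rf B y d2 := by
        rw [e, rfW_add, rfW_add, rfW_smul, rfW_smul, rfW_smul, et]
      exact e2.symm.trans e3
  rcases sign_foot k1 rt k3 k4 hx rx hB with s1 | ⟨s1, s2, s3⟩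
  · rcases sign_foot k1 rt k3 k4 hx' rx' hB' with s4 | ⟨s4, s5, s6⟩
    · exact ⟨d1, d2, k1, k2, k3, k4, s1, s4⟩
    · obtain ⟨e1, e2, l1, l2, l3, l4, l5⟩ := flip x' hx' s4 s5 s6
      refine ⟨e1, e2, l1, l2, l3, l4, ?_, l5⟩
      rcases sign_foot l1 rt l3 l4 hx rx hB with m1 | ⟨-, m2, -⟩
      · exact m1
      · exfalso
        linarith
  · obtain ⟨e1, e2, l1, l2, l3, l4, l5⟩ := flip x hx s1 s2 s3
    refine ⟨e1, e2, l1, l2, l3, l4, l5, ?_⟩
    rcases sign_foot l1 rt l3 l4 hx' rx' hB' with m1 | ⟨-, m2, -⟩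
    · exact m1
    · exfalso
      linarith

/-- the statement of block [STR] -/
def StrStat (Ψ : Set E) (B : E →ₗ[ℝ] E →ₗ[ℝ] ℝ) : Prop :=
  ∀ (ρ φ : E →ₗ[ℝ] ℝ) (t d1 d2 x x' : E), Tri Ψ B t d1 d2 → Adm Ψ t d1 d2 ρ → ρ t = 1 → φ t = 1 →
    (∀ u ∈ Ψ, ∃ α β : ℝ, u = α • x + β • x' + φ u • t) → B t d1 ≤ ρ d1 → B t d2 ≤ ρ d2 →
    ¬ KillS Ψ ρ x x' t → ∀ n ∈ Ψ, n ∈ C01 t d1 d2 → n ≠ t → Str (-B t n) (φ n) (ρ n)

/-- **reduction of `StarS`** -/
theorem starS_of_loc {a b c : E} (hT : Tri Ψ B a b c) (hstr : StrStat Ψ B)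
    (hL : ∀ (ρ φ : E →ₗ[ℝ] ℝ) (t d1 d2 x x' : E), ¬ Loc Ψ B ρ φ t d1 d2 x x') : StarS Ψ a b c := by
  intro ρ hA x hx x' hx' t ht hind hxx hxt hxt' rx rx' hpos rt hsum k hk hkr hk1 hk2 hk3
  by_contra hkill
  set s := (ρ t)⁻¹ with hs
  have hs0 : 0 < s := inv_pos.mpr rt
  have hv : ∀ u, (s • ρ) u = s * ρ u := fun u => rfl
  have rt1 : (s • ρ) t = 1 := by
    rw [hv, hs]
    exact inv_mul_cancel₀ rt.ne'
  have habs : ∀ u r, |(s • ρ) u| ≤ r ↔ |ρ u| ≤ ρ t * r := by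
    intro u r
    rw [hv, abs_mul, abs_of_pos hs0, hs, inv_mul_le_iff₀ rt]
  have hA1 : Adm Ψ a b c (s • ρ) := by
    refine ⟨fun r => ?_, ?_⟩
    · refine (hA.fin (ρ t * r)).subset ?_
      rintro u ⟨hu, h1⟩
      exact ⟨hu, (habs u r).1 h1⟩
    · refine hA.neg.subset ?_
      rintro u ⟨hu, hp, h1⟩
      refine ⟨hu, hp, ?_⟩
      rw [hv] at h1
      by_contra h2
      rw [not_le] at h2
      have := mul_pos hs0 h2
      linarith
  have hkill1 : ¬ KillS Ψ (s • ρ) x x' t := by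
    rintro ⟨g, hg, h, hh, h1, h2, h3, h4, h5, h6, h7⟩
    apply hkill
    refine ⟨g, hg, h, hh, h1, h2, ?_, ?_, h5, h6, h7⟩
    · rw [rt1, habs, mul_one] at h3
      exact h3
    · rw [rt1, habs, mul_one] at h4
      exact h4
  have hBx := hxt.nonpos hT.sys hx ht
  have hBx' := hxt'.nonpos hT.sys hx' ht
  have rx1 : 0 ≤ (s • ρ) x := mul_nonneg hs0.le rx
  have rx1' : 0 ≤ (s • ρ) x' := mul_nonneg hs0.le rx'
  have hpos1 : 0 < (s • ρ) x + (s • ρ) x' := by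
    rw [hv, hv, ← mul_add]
    exact mul_pos hs0 hpos
  have hsum1 : (s • ρ) x + (s • ρ) x' ≤ 1 := by
    rw [hv, hv, ← mul_add, hs, inv_mul_le_iff₀ rt]
    linarith
  obtain ⟨d1, d2, k1, k2, k3, k4, k5, k6⟩ :=
    exists_foot2 hT hA1 ht hx hx' rt1 rx1 rx1' hpos1 hBx hBx'
  -- the functional
  have hne : x ≠ x' := by
    rintro rfl
    have := hind 1 (-1) 0 (by module)
    linarith [this.1]
  have hne' : x ≠ -x' := by
    rintro h1
    have := hind 1 1 0 (by rw [h1]; module)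
    linarith [this.1]
  obtain ⟨φ, hφ⟩ := exists_fn hT hx hx' hne hne'
  have hφt : φ t ≠ 0 := by
    intro h0
    obtain ⟨α, β, h1⟩ := hφ.ker t ht h0
    have := hind α β (-1) (by rw [h1]; module)
    linarith [this.2.2]
  set φ1 : E →ₗ[ℝ] ℝ := (φ t)⁻¹ • φ with hφ1
  have hw : ∀ u, φ1 u = (φ t)⁻¹ * φ u := fun u => rfl
  have ft : φ1 t = 1 := by
    rw [hw]
    exact inv_mul_cancel₀ hφt
  have fx : φ1 x = 0 := by rw [hw, hφ.zx, mul_zero]
  have fx' : φ1 x' = 0 := by rw [hw, hφ.zx', mul_zero]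
  have sp : ∀ u ∈ Ψ, ∃ α β : ℝ, u = α • x + β • x' + φ1 u • t := by
    intro u hu
    obtain ⟨α, β, γ, h1⟩ := hφ.span3 u hu t ht hφt
    refine ⟨α, β, ?_⟩
    have h2 : φ1 u = γ := by
      rw [h1, map_add, map_add, map_smul, map_smul, map_smul, fx, fx', ft]
      simp
    rw [h2]
    exact h1
  -- not a chamber
  have hnc : ∀ y y' : E, Tri Ψ B t y y' → 0 ≤ (s • ρ) y → 0 ≤ (s • ρ) y' →
      0 < (s • ρ) y + (s • ρ) y' → (∀ α β : ℝ, k ≠ α • y + β • y') →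
      (∀ α β : ℝ, k ≠ α • y + β • t) → (∀ α β : ℝ, k ≠ α • y' + β • t) → False := by
    intro y y' hT' ry ry' rp n1 n2 n3
    have hkr1 : |(s • ρ) k| ≤ 1 := by
      rw [habs, mul_one]
      exact hkr
    have key : ∀ α β γ : ℝ, (k = α • t + β • y + γ • y' ∨ -k = α • t + β • y + γ • y') → Z1 α → Z1 β →
        Z1 γ → False := by
      intro α β γ e g1 g2 g3
      have hα : 1 ≤ α := by
        rcases g1 with g1 | g1
        · exfalso
          rcases e with e | e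
          · exact n1 β γ (by rw [e, g1]; module)
          · exact n1 (-β) (-γ) (by rw [← neg_neg k, e, g1]; module)
        · exact g1
      have hβ : 1 ≤ β := by
        rcases g2 with g2 | g2
        · exfalso
          rcases e with e | e
          · exact n3 γ α (by rw [e, g2]; module)
          · exact n3 (-γ) (-α) (by rw [← neg_neg k, e, g2]; module)
        · exact g2
      have hγ : 1 ≤ γ := by
        rcases g3 with g3 | g3
        · exfalso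
          rcases e with e | e
          · exact n2 β α (by rw [e, g3]; module)
          · exact n2 (-β) (-α) (by rw [← neg_neg k, e, g3]; module)
        · exact g3
      have h1 : (s • ρ) (α • t + β • y + γ • y') = α + β * (s • ρ) y + γ * (s • ρ) y' := by
        rw [map_add, map_add, map_smul, map_smul, map_smul, rt1]
        simp only [smul_eq_mul]
        ring
      have h2 : |(s • ρ) (α • t + β • y + γ • y')| ≤ 1 := by
        rcases e with e | e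
        · rw [← e]
          exact hkr1
        · rw [← e, map_neg, abs_neg]
          exact hkr1
      rw [h1] at h2
      have h3 := (abs_le.1 h2).2
      have h4 := mul_le_mul_of_nonneg_right hβ ry
      have h5 := mul_le_mul_of_nonneg_right hγ ry'
      linarith
    rcases hT'.pos k hk with ⟨α, β, γ, e, g1, g2, g3⟩ | ⟨α, β, γ, e, g1, g2, g3⟩
    · exact key α β γ (Or.inl e) g1 g2 g3
    · exact key α β γ (Or.inr e) g1 g2 g3
  refine hL (s • ρ) φ1 t d1 d2 x x' ⟨k1, k2, rt1, ft, fx, fx', hx, hx', k5, k6, hxx, hxt, hxt', hind,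
    sp, rx1, rx1', hpos1, hsum1, ?_, ?_, hstr _ _ _ _ _ _ _ k1 k2 rt1 ft sp k3 k4 hkill1⟩
  · rintro ⟨rfl, rfl⟩
    exact hnc x x' k1 rx1 rx1' hpos1 hk1 hk2 hk3
  · rintro ⟨rfl, rfl⟩
    refine hnc x' x k1 rx1' rx1 (by linarith) (fun α β h => hk1 β α ?_) hk3 hk2
    rw [h]
    abel

end DY
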